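import Mathlib

/-!
# Lipschitz functions with an almost everywhere derivative (helper234)
-/

set_option autoImplicit false

noncomputable section

namespace Pool.Agent.Q234.JO

open MeasureTheory Set Filter Topology

variable {E F G : Type*} [NormedAddCommGroup E] [NormedSpace ℝ E]
  [NormedAddCommGroup F] [NormedSpace ℝ F] [NormedAddCommGroup G] [NormedSpace ℝ G]

/-- `X` is Lipschitz on `[s, T]` with almost everywhere derivative `f`. -/
structure LipD (X f : ℝ → E) (s T : ℝ) : Prop where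
  lip : ∃ K : NNReal, LipschitzOnWith K X (Icc s T)
  der : ∀ᵐ t, t ∈ Ioo s T → HasDerivAt X (f t) t
  int : IntervalIntegrable f volume s T

lemma LipD.cont {X f : ℝ → E} {s T : ℝ} (h : LipD X f s T) : ContinuousOn X (Icc s T) := by
  obtain ⟨K, hK⟩ := h.lip
  exact hK.continuousOn

lemma LipD.bdd {X f : ℝ → E} {s T : ℝ} (h : LipD X f s T) :
    ∃ C : ℝ, 0 ≤ C ∧ ∀ t ∈ Icc s T, ‖X t‖ ≤ C := by
  obtain ⟨C, hC⟩ := isCompact_Icc.exists_bound_of_continuousOn h.cont
  exact ⟨max C 0, le_max_right _ _, fun t ht => (hC t ht).trans (le_max_left _ _)⟩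

/-- the derivative is bounded almost everywhere -/
lemma LipD.der_le {X f : ℝ → E} {s T : ℝ} (h : LipD X f s T) :
    ∃ K : NNReal, ∀ᵐ t, t ∈ Ioo s T → ‖f t‖ ≤ K := by
  obtain ⟨K, hK⟩ := h.lip
  refine ⟨K, ?_⟩
  filter_upwards [h.der] with t ht hI
  have h1 : Icc s T ∈ 𝓝 t := Icc_mem_nhds hI.1 hI.2
  exact (ht hI).le_of_lipschitzOn h1 hK

lemma lip_integral [CompleteSpace E] {f : ℝ → E} {s T : ℝ} (hf : IntervalIntegrable f volume s T)
    {K : NNReal} (hK : ∀ᵐ t, t ∈ Ioo s T → ‖f t‖ ≤ K) :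
    LipschitzOnWith K (fun t => ∫ r in s..t, f r) (Icc s T) := by
  refine LipschitzOnWith.of_dist_le_mul fun a ha b hb => ?_
  have hsT : s ≤ T := ha.1.trans ha.2
  have hia : ∀ c ∈ Icc s T, IntervalIntegrable f volume s c := fun c hc =>
    hf.mono_set (by rw [uIcc_of_le hc.1, uIcc_of_le hsT]; exact Icc_subset_Icc le_rfl hc.2)
  rw [dist_eq_norm, intervalIntegral.integral_interval_sub_left (hia a ha) (hia b hb)]
  have h1 : ∀ᵐ t, t ∈ uIoc b a → ‖f t‖ ≤ K := by
    have h2 : ∀ᵐ t : ℝ, t ≠ T := by simp [ae_iff, measure_singleton]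
    filter_upwards [hK, h2] with t ht hT hI
    refine ht ⟨?_, ?_⟩
    · rcases le_total b a with h | h
      · rw [uIoc_of_le h] at hI
        exact lt_of_le_of_lt hb.1 hI.1
      · rw [uIoc_of_ge h] at hI
        exact lt_of_le_of_lt ha.1 hI.1
    · rcases le_total b a with h | h
      · rw [uIoc_of_le h] at hI
        exact lt_of_le_of_ne (hI.2.trans ha.2) hT
      · rw [uIoc_of_ge h] at hI
        exact lt_of_le_of_ne (hI.2.trans hb.2) hT
  have h3 := intervalIntegral.norm_integral_le_of_norm_le_const_ae (a := b) (b := a) h1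
  rw [Real.dist_eq]
  exact h3

/-- from an integral equation -/
lemma LipD.of_integral [CompleteSpace E] {X f : ℝ → E} {s T : ℝ}
    (hf : IntervalIntegrable f volume s T) {K : ℝ} (hK : ∀ t ∈ Icc s T, ‖f t‖ ≤ K) {x₀ : E}
    (hX : ∀ t ∈ Icc s T, X t = x₀ + ∫ r in s..t, f r) : LipD X f s T := by
  have hK0 : ∀ᵐ t, t ∈ Ioo s T → ‖f t‖ ≤ (K.toNNReal : ℝ) :=
    Filter.Eventually.of_forall fun t ht => (hK t ⟨ht.1.le, ht.2.le⟩).trans (Real.le_coe_toNNReal K)
  refine ⟨⟨K.toNNReal, ?_⟩, ?_, hf⟩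
  · have h1 := lip_integral hf hK0
    intro a ha b hb
    have := h1 ha hb
    rw [hX a ha, hX b hb]
    rwa [edist_add_left]
  · filter_upwards [hf.ae_hasDerivAt_integral] with t ht hI
    have hsT : s ≤ T := (hI.1.trans hI.2).le
    have h1 := ht (by rw [uIcc_of_le hsT]; exact ⟨hI.1.le, hI.2.le⟩) s left_mem_uIcc
    have h2 := h1.const_add x₀
    refine h2.congr_of_eventuallyEq ?_
    filter_upwards [Icc_mem_nhds hI.1 hI.2] with u hu
    exact hX u hu

/-- fundamental theorem of calculus -/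
lemma LipD.ftc [CompleteSpace E] {X f : ℝ → E} {s T : ℝ} (h : LipD X f s T) :
    ∀ t ∈ Icc s T, X t = X s + ∫ r in s..t, f r := by
  intro t ht
  have hsT : s ≤ T := ht.1.trans ht.2
  obtain ⟨K, hK⟩ := h.lip
  obtain ⟨K', hK'⟩ := h.der_le
  have h1 : LipschitzOnWith K' (fun t => ∫ r in s..t, f r) (Icc s T) := lip_integral h.int hK'
  have h2 : AbsolutelyContinuousOnInterval (fun t => X t - ∫ r in s..t, f r) s T := by
    refine (LipschitzOnWith.absolutelyContinuousOnInterval (K := K) ?_).sub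
      (LipschitzOnWith.absolutelyContinuousOnInterval (K := K') ?_)
    · rwa [uIcc_of_le hsT]
    · rwa [uIcc_of_le hsT]
  have h3 : ∀ᵐ x, x ∈ uIcc s T → HasDerivAt (fun t => X t - ∫ r in s..t, f r) 0 x := by
    have e1 : ∀ᵐ t : ℝ, t ≠ s := by simp [ae_iff, measure_singleton]
    have e2 : ∀ᵐ t : ℝ, t ≠ T := by simp [ae_iff, measure_singleton]
    filter_upwards [h.der, h.int.ae_hasDerivAt_integral, e1, e2] with x hx1 hx2 hxs hxT hx
    have hx' := hx
    rw [uIcc_of_le hsT] at hx'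
    have hI : x ∈ Ioo s T := ⟨lt_of_le_of_ne hx'.1 (Ne.symm hxs), lt_of_le_of_ne hx'.2 hxT⟩
    have := (hx1 hI).sub (hx2 hx s left_mem_uIcc)
    rwa [sub_self] at this
  obtain ⟨C, hC⟩ := h2.const_of_ae_hasDerivAt_zero h3
  have h4 := hC t (by rw [uIcc_of_le hsT]; exact ht)
  have h5 := hC s left_mem_uIcc
  simp only [intervalIntegral.integral_same, sub_zero] at h5
  rw [← h5] at h4
  exact sub_eq_iff_eq_add.1 h4

lemma LipD.bilin {X f : ℝ → E} {Y g : ℝ → F} {s T : ℝ} (hsT : s ≤ T) (hX : LipD X f s T)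
    (hY : LipD Y g s T) (B : E →L[ℝ] F →L[ℝ] G) :
    LipD (fun t => B (X t) (Y t)) (fun t => B (X t) (g t) + B (f t) (Y t)) s T := by
  obtain ⟨K, hK⟩ := hX.lip
  obtain ⟨K', hK'⟩ := hY.lip
  obtain ⟨C, hC0, hC⟩ := hX.bdd
  obtain ⟨C', hC0', hC'⟩ := hY.bdd
  refine ⟨⟨(‖B‖ * (C * K' + K * C')).toNNReal, ?_⟩, ?_, ?_⟩
  · refine LipschitzOnWith.of_dist_le_mul fun a ha b hb => ?_
    rw [Real.coe_toNNReal _ (by positivity), dist_eq_norm]
    have e1 : B (X a) (Y a) - B (X b) (Y b) = B (X a) (Y a - Y b) + B (X a - X b) (Y b) := by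
      simp [map_sub]
    have h1 := hK.dist_le_mul a ha b hb
    have h2 := hK'.dist_le_mul a ha b hb
    rw [dist_eq_norm] at h1 h2
    rw [e1]
    calc ‖B (X a) (Y a - Y b) + B (X a - X b) (Y b)‖
        ≤ ‖B (X a) (Y a - Y b)‖ + ‖B (X a - X b) (Y b)‖ := norm_add_le _ _
      _ ≤ ‖B‖ * ‖X a‖ * ‖Y a - Y b‖ + ‖B‖ * ‖X a - X b‖ * ‖Y b‖ :=
          add_le_add (B.le_opNorm₂ _ _) (B.le_opNorm₂ _ _)
      _ ≤ ‖B‖ * C * (K' * dist a b) + ‖B‖ * (K * dist a b) * C' := by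
          have := hC a ha
          have := hC' b hb
          gcongr
      _ = _ := by ring
  · filter_upwards [hX.der, hY.der] with t h1 h2 ht
    exact B.hasDerivAt_of_bilinear (fun _ => h1 ht) (fun _ => h2 ht)
  · have hXm : AEStronglyMeasurable X (volume.restrict (Ioc s T)) :=
      (hX.cont.mono Ioc_subset_Icc_self).aestronglyMeasurable measurableSet_Ioc
    have hYm : AEStronglyMeasurable Y (volume.restrict (Ioc s T)) :=
      (hY.cont.mono Ioc_subset_Icc_self).aestronglyMeasurable measurableSet_Ioc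
    have hfi : IntegrableOn f (Ioc s T) volume := (intervalIntegrable_iff_integrableOn_Ioc_of_le hsT).1 hX.int
    have hgi : IntegrableOn g (Ioc s T) volume := (intervalIntegrable_iff_integrableOn_Ioc_of_le hsT).1 hY.int
    rw [intervalIntegrable_iff_integrableOn_Ioc_of_le hsT]
    refine Integrable.add ?_ ?_
    · refine Integrable.mono' (hgi.norm.const_mul (‖B‖ * C))
        (B.aestronglyMeasurable_comp₂ hXm hgi.aestronglyMeasurable) ?_
      filter_upwards [ae_restrict_mem measurableSet_Ioc] with t ht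
      have h1 := hC t ⟨ht.1.le, ht.2⟩
      calc ‖B (X t) (g t)‖ ≤ ‖B‖ * ‖X t‖ * ‖g t‖ := B.le_opNorm₂ _ _
        _ ≤ ‖B‖ * C * ‖g t‖ := by gcongr
    · refine Integrable.mono' (hfi.norm.const_mul (‖B‖ * C'))
        (B.aestronglyMeasurable_comp₂ hfi.aestronglyMeasurable hYm) ?_
      filter_upwards [ae_restrict_mem measurableSet_Ioc] with t ht
      have h1 := hC' t ⟨ht.1.le, ht.2⟩
      calc ‖B (f t) (Y t)‖ ≤ ‖B‖ * ‖f t‖ * ‖Y t‖ := B.le_opNorm₂ _ _
        _ ≤ ‖B‖ * ‖f t‖ * C' := by gcongr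
        _ = ‖B‖ * C' * ‖f t‖ := by ring

lemma LipD.clm {X f : ℝ → E} {s T : ℝ} (hX : LipD X f s T) (L : E →L[ℝ] F) :
    LipD (fun t => L (X t)) (fun t => L (f t)) s T := by
  obtain ⟨K, hK⟩ := hX.lip
  refine ⟨⟨‖L‖₊ * K, ?_⟩, ?_, ?_⟩
  · exact L.lipschitz.comp_lipschitzOnWith hK
  · filter_upwards [hX.der] with t h1 ht
    exact L.hasFDerivAt.comp_hasDerivAt t (h1 ht)
  · exact ⟨L.integrable_comp hX.int.1, L.integrable_comp hX.int.2⟩

lemma LipD.congr {X f g : ℝ → E} {s T : ℝ} (hX : LipD X f s T) (h : ∀ t ∈ Ioc s T, f t = g t)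
    (hsT : s ≤ T) : LipD X g s T := by
  refine ⟨hX.lip, ?_, ?_⟩
  · filter_upwards [hX.der] with t h1 ht
    rw [← h t ⟨ht.1, ht.2.le⟩]
    exact h1 ht
  · refine hX.int.congr ?_
    rw [uIoc_of_le hsT]
    exact fun t ht => h t ht

/-- nonincreasing from a nonpositive derivative -/
lemma LipD.mono_of_nonneg {X f : ℝ → ℝ} {s T : ℝ} (hX : LipD X f s T)
    (hf : ∀ t ∈ Ioo s T, 0 ≤ f t) : ∀ a ∈ Icc s T, ∀ b ∈ Icc s T, a ≤ b → X a ≤ X b := by
  intro a ha b hb hab
  rw [hX.ftc a ha, hX.ftc b hb]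
  have hsT : s ≤ T := ha.1.trans ha.2
  have hia : ∀ c ∈ Icc s T, IntervalIntegrable f volume s c := fun c hc =>
    hX.int.mono_set (by rw [uIcc_of_le hc.1, uIcc_of_le hsT]; exact Icc_subset_Icc le_rfl hc.2)
  have h1 := intervalIntegral.integral_interval_sub_left (hia b hb) (hia a ha)
  have h2 : 0 ≤ ∫ r in a..b, f r := by
    refine intervalIntegral.integral_nonneg_of_ae_restrict hab ?_
    have e2 : ∀ᵐ t : ℝ, t ≠ s := by simp [ae_iff, measure_singleton]
    have e3 : ∀ᵐ t : ℝ, t ≠ T := by simp [ae_iff, measure_singleton]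
    filter_upwards [ae_restrict_mem measurableSet_Icc, ae_restrict_of_ae e2,
      ae_restrict_of_ae e3] with t ht hts htT
    exact hf t ⟨lt_of_le_of_ne (ha.1.trans ht.1) (Ne.symm hts), lt_of_le_of_ne (ht.2.trans hb.2) htT⟩
  linarith

end Pool.Agent.Q234.JO
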