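import Pool.Agent.Q234.JO.Lin

/-!
# The trace norm (helper234)
-/

set_option autoImplicit false

noncomputable section

namespace Pool.Agent.Q234.JO

open Matrix
open scoped ComplexOrder MatrixOrder

variable {d : ℕ}

/-- trace norm: the trace of the square root of `Aᴴ A` -/
def tn (A : M d) : ℝ := (trace (CFC.sqrt (Aᴴ * A))).re

lemma tn_eq_abs (A : M d) : tn A = (trace (CFC.abs A)).re := rfl

lemma tn_dec {A : M d} (hA : A.IsHermitian) : ∃ P Q : M d, P.PosSemidef ∧ Q.PosSemidef ∧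
    A = P - Q ∧ tn A = (trace P).re + (trace Q).re := by
  have hs : IsSelfAdjoint A := hA.isSelfAdjoint
  refine ⟨A⁺, A⁻, (CFC.posPart_nonneg A).posSemidef, (CFC.negPart_nonneg A).posSemidef,
    (CFC.posPart_sub_negPart A).symm, ?_⟩
  rw [tn_eq_abs, ← CFC.posPart_add_negPart A, trace_add, Complex.add_re]

lemma trace_mul_nonneg {X Y : M d} (hX : X.PosSemidef) (hY : Y.PosSemidef) :
    0 ≤ (trace (X * Y)).re := by
  have h1 : CFC.sqrt X * CFC.sqrt X = X := CFC.sqrt_mul_sqrt_self X hX.nonneg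
  have h2 : (CFC.sqrt X)ᴴ = CFC.sqrt X := (CFC.sqrt_nonneg X).posSemidef.1
  have h3 : (trace (X * Y)).re = (trace (CFC.sqrt X * Y * (CFC.sqrt X)ᴴ)).re := by
    rw [h2, Matrix.trace_mul_comm (CFC.sqrt X * Y), ← Matrix.mul_assoc, h1]
  rw [h3]
  exact trace_re_nonneg (hY.mul_mul_conjTranspose_same _)

lemma tn_le {P Q : M d} (hP : P.PosSemidef) (hQ : Q.PosSemidef) :
    tn (P - Q) ≤ (trace P).re + (trace Q).re := by
  obtain ⟨A, hAdef⟩ : ∃ A, A = P - Q := ⟨_, rfl⟩
  rw [← hAdef]
  have hs : IsSelfAdjoint A := by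
    rw [hAdef]
    exact (hP.1.sub hQ.1).isSelfAdjoint
  have hc : ∀ f : ℝ → ℝ, ContinuousOn f (spectrum ℝ A) := fun f =>
    (Matrix.finite_real_spectrum (A := A)).continuousOn f
  have h1 : CFC.abs A = cfc Real.sign A * A := by
    have h2 : cfc Real.sign A * A = cfc Real.sign A * cfc (fun x : ℝ => x) A := by
      rw [cfc_id' ℝ A]
    rw [CFC.abs_eq_cfc_norm A, h2, ← cfc_mul Real.sign (fun x : ℝ => x) A (hc _) (hc _)]
    refine cfc_congr fun x _ => ?_
    show ‖x‖ = Real.sign x * x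
    rcases lt_trichotomy x 0 with h | h | h
    · rw [Real.sign_of_neg h, Real.norm_eq_abs, abs_of_neg h]; ring
    · rw [h]; simp
    · rw [Real.sign_of_pos h, Real.norm_eq_abs, abs_of_pos h]; ring
  have h3 : (1 - cfc Real.sign A).PosSemidef := by
    have h4 : 1 - cfc Real.sign A = cfc (fun x => 1 - Real.sign x) A := by
      rw [cfc_sub (fun _ => 1) Real.sign A (hc _) (hc _), cfc_const_one ℝ A]
    rw [h4]
    refine (cfc_nonneg fun x _ => ?_).posSemidef
    rcases Real.sign_apply_eq x with h | h | h <;> rw [h] <;> norm_num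
  have h5 : (1 + cfc Real.sign A).PosSemidef := by
    have h4 : 1 + cfc Real.sign A = cfc (fun x => 1 + Real.sign x) A := by
      rw [cfc_add A (fun _ => 1) Real.sign (hc _) (hc _), cfc_const_one ℝ A]
    rw [h4]
    refine (cfc_nonneg fun x _ => ?_).posSemidef
    rcases Real.sign_apply_eq x with h | h | h <;> rw [h] <;> norm_num
  have h6 := trace_mul_nonneg h3 hP
  have h7 := trace_mul_nonneg h5 hQ
  rw [sub_mul, one_mul, trace_sub, Complex.sub_re] at h6
  rw [add_mul, one_mul, trace_add, Complex.add_re] at h7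
  rw [tn_eq_abs, h1]
  have h8 : (trace (cfc Real.sign A * A)).re =
      (trace (cfc Real.sign A * P)).re - (trace (cfc Real.sign A * Q)).re := by
    rw [← Complex.sub_re, ← trace_sub, ← mul_sub, ← hAdef]
  rw [h8]
  linarith

lemma tn_nonneg (A : M d) : 0 ≤ tn A := by
  rw [tn_eq_abs]
  exact trace_re_nonneg (CFC.abs_nonneg A).posSemidef

end Pool.Agent.Q234.JO
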