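import Pool.Agent.Q234.JO.Doeb
import Pool.Agent.Q234.JO.TN

/-!
# Contraction in trace norm (helper234)
-/

set_option autoImplicit false

noncomputable section

namespace Pool.Agent.Q234.JO

open Matrix MeasureTheory Set Filter Topology
open scoped ComplexOrder Matrix.Norms.L2Operator

section Lin

variable {E : Type*} [NormedAddCommGroup E] [NormedSpace ℝ E]
  {A : ℝ → E →L[ℝ] E} {M T : ℝ} {X Y : ℝ → E}

lemma IsSol.sub (hA : Fam A M) (hX : IsSol A T X) (hY : IsSol A T Y) :
    IsSol A T (fun t => X t - Y t) := by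
  refine ⟨hX.cont.sub hY.cont, fun t ht => ?_⟩
  have hint : ∀ {Z : ℝ → E}, ContinuousOn Z (Icc 0 T) →
      IntervalIntegrable (fun r => A r (Z r)) volume 0 t := fun {Z} hZ =>
    hA.int ht.1 (hZ.mono (Icc_subset_Icc le_rfl ht.2))
  simp only [map_sub]
  rw [intervalIntegral.integral_sub (hint hX.cont) (hint hY.cont), hX.eq t ht, hY.eq t ht]
  abel

lemma IsSol.smul (c : ℝ) (hX : IsSol A T X) : IsSol A T (fun t => c • X t) := by
  refine ⟨hX.cont.const_smul c, fun t ht => ?_⟩
  simp only [map_smul]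
  rw [intervalIntegral.integral_smul, hX.eq t ht, smul_add]

end Lin

variable {d m : ℕ} {L : Fin m → M d}

/-- density matrices -/
def Dens (X : M d) : Prop := X.PosSemidef ∧ trace X = 1

lemma contr {H : ℝ → M d} {C T c : ℝ} (hH : BH H C) (hT : 0 ≤ T)
    (hc : ∀ X : ℝ → M d, IsSol (fun t => linL L (H t)) T X → (X 0).PosSemidef →
      (trace (X 0)).re = 1 → (X T - c • (1 : M d)).PosSemidef)
    {X Y : ℝ → M d} (hX : IsSol (fun t => linL L (H t)) T X)
    (hY : IsSol (fun t => linL L (H t)) T Y) (hX0 : Dens (X 0)) (hY0 : Dens (Y 0)) :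
    tn (X T - Y T) ≤ (1 - c * d) * tn (X 0 - Y 0) := by
  have hTm : T ∈ Icc 0 T := ⟨hT, le_rfl⟩
  obtain ⟨P, Q, hP, hQ, hPQ, htn⟩ := tn_dec (hX0.1.1.sub hY0.1.1)
  have htr : (trace P).re = (trace Q).re := by
    have h1 := congrArg (fun A => (trace A).re) hPQ
    simp only [trace_sub, Complex.sub_re, hX0.2, hY0.2] at h1
    linarith
  have hZ := IsSol.sub (fam_lin L hH) hX hY
  have hP0 := trace_re_nonneg hP
  rcases hP0.eq_or_lt with h0 | h0
  · -- equal initial data
    have hPz : P = 0 := trace_zero_of_re hP h0.symm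
    have hQz : Q = 0 := trace_zero_of_re hQ (by rw [← htr]; exact h0.symm)
    rw [hPz, hQz, sub_zero, sub_eq_zero] at hPQ
    have h2 := hX.unique (fam_lin L hH) hY hPQ T hTm
    have h3 : tn (X T - Y T) ≤ 0 := by
      have h4 := tn_le (PosSemidef.zero : (0 : M d).PosSemidef) (PosSemidef.zero : (0 : M d).PosSemidef)
      rw [sub_zero] at h4
      rw [h2, sub_self]
      simpa using h4
    have h5 : tn (X 0 - Y 0) = 0 := by
      rw [htn, hPz, hQz]
      simp
    rw [h5, mul_zero]
    exact h3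
  · set τ := (trace P).re with hτ
    obtain ⟨PP, hPP0, -, hPPs⟩ := (fam_lin L hH).exists_sol (τ⁻¹ • P)
    obtain ⟨QQ, hQQ0, -, hQQs⟩ := (fam_lin L hH).exists_sol (τ⁻¹ • Q)
    have hPt : (trace (PP 0)).re = 1 := by
      rw [hPP0, trace_smul, Complex.smul_re, smul_eq_mul, inv_mul_cancel₀ h0.ne']
    have hQt : (trace (QQ 0)).re = 1 := by
      rw [hQQ0, trace_smul, Complex.smul_re, smul_eq_mul, ← htr, inv_mul_cancel₀ h0.ne']
    have h1 := hc PP (hPPs T) (by rw [hPP0]; exact hP.smul (by positivity)) hPt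
    have h2 := hc QQ (hQQs T) (by rw [hQQ0]; exact hQ.smul (by positivity)) hQt
    have h3 : X T - Y T = τ • (PP T - c • (1 : M d)) - τ • (QQ T - c • (1 : M d)) := by
      have h4 := ((IsSol.sub (fam_lin L hH) (hPPs T) (hQQs T)).smul τ)
      have h5 := hZ.unique (fam_lin L hH) h4 (by
        show X 0 - Y 0 = τ • (PP 0 - QQ 0)
        rw [hPP0, hQQ0, ← smul_sub, smul_smul, mul_inv_cancel₀ h0.ne', one_smul, hPQ]) T hTm
      have h6 : X T - Y T = τ • (PP T - QQ T) := h5
      rw [h6, ← smul_sub]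
      congr 1
      abel
    have h7 := tn_le (h1.smul h0.le) (h2.smul h0.le)
    rw [← h3] at h7
    have h8 : ∀ A : ℝ → M d, IsSol (fun t => linL L (H t)) T A → (trace (A 0)).re = 1 →
        (trace (τ • (A T - c • (1 : M d)))).re = τ * (1 - c * d) := by
      intro A hA hA1
      rw [trace_smul, trace_sub, trace_smul, trace_one, trace_sol L hH hT hA T hTm,
        Complex.smul_re, Complex.sub_re, Complex.smul_re, hA1, Fintype.card_fin]
      simp
    rw [h8 PP (hPPs T) hPt, h8 QQ (hQQs T) hQt] at h7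
    rw [htn, ← htr]
    linarith

/-- solutions on `[s, ∞)` -/
structure GSol (L : Fin m → M d) (H : ℝ → M d) (s : ℝ) (X : ℝ → M d) : Prop where
  cont : ContinuousOn X (Ici s)
  eq : ∀ t, s ≤ t → X t = X s + ∫ r in s..t, lin L (H r) (X r)

/-- admissible drives on `[0, ∞)` -/
structure Adm (H : ℝ → M d) : Prop where
  meas : AEStronglyMeasurable H volume
  bd : ∀ T, ∃ C, ∀ t ∈ Icc 0 T, ‖H t‖ ≤ C
  herm : ∀ t, 0 ≤ t → (H t).IsHermitian

/-- cut off and shift -/
def cut (H : ℝ → M d) (u T : ℝ) (t : ℝ) : M d := (Icc 0 T).indicator (fun t => H (u + t)) t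

lemma cut_bh {H : ℝ → M d} (hH : Adm H) {u T : ℝ} (hu : 0 ≤ u) : ∃ C, BH (cut H u T) C := by
  obtain ⟨C, hC⟩ := hH.bd (u + T)
  refine ⟨max C 0, ?_, fun t => ?_, fun t => ?_⟩
  · refine AEStronglyMeasurable.indicator ?_ measurableSet_Icc
    exact hH.meas.comp_quasiMeasurePreserving
      (measurePreserving_add_left volume u).quasiMeasurePreserving
  · unfold cut
    by_cases ht : t ∈ Icc 0 T
    · rw [indicator_of_mem ht]
      exact (hC _ ⟨add_nonneg hu ht.1, by linarith [ht.2]⟩).trans (le_max_left _ _)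
    · rw [indicator_of_notMem ht, norm_zero]
      exact le_max_right _ _
  · unfold cut
    by_cases ht : t ∈ Icc 0 T
    · rw [indicator_of_mem ht]
      exact hH.herm _ (add_nonneg hu ht.1)
    · rw [indicator_of_notMem ht]
      exact isHermitian_zero

lemma GSol.shift {H : ℝ → M d} (hH : Adm H) {s u T : ℝ} (hs : 0 ≤ s) (hsu : s ≤ u) (_hT : 0 ≤ T)
    {X : ℝ → M d} (hX : GSol L H s X) :
    IsSol (fun t => linL L (cut H u T t)) T (fun t => X (u + t)) := by
  have hu : 0 ≤ u := hs.trans hsu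
  obtain ⟨C, hB⟩ := cut_bh (T := T + (u - s)) hH hs
  have hXs : ∀ b, ContinuousOn X (Icc s b) := fun b => hX.cont.mono Icc_subset_Ici_self
  refine ⟨?_, fun t ht => ?_⟩
  · refine ContinuousOn.comp hX.cont (by fun_prop) fun t ht => ?_
    exact hsu.trans (by linarith [ht.1])
  · -- integrability on [s, u + t]
    have hfam := fam_lin L hB
    have hint : IntervalIntegrable (fun r => lin L (H r) (X r)) volume s (u + t) := by
      have h1 : IntervalIntegrable (fun r => linL L (cut H s (T + (u - s)) r) (X (s + r))) volume 0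
          (u + t - s) := by
        refine (hfam.int (T := u + t - s) (X := fun r => X (s + r)) (by linarith [ht.1]) ?_)
        refine ContinuousOn.comp hX.cont (by fun_prop) fun r hr => ?_
        show s ≤ s + r
        linarith [hr.1]
      have h2 := (h1.comp_sub_right s)
      simp only [zero_add, sub_add_cancel] at h2
      refine h2.congr ?_
      rw [uIoc_of_le (by linarith [ht.1])]
      intro r hr
      have hr' : r - s ∈ Icc 0 (T + (u - s)) := ⟨by linarith [hr.1], by linarith [hr.2, ht.2]⟩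
      show linL L (cut H s (T + (u - s)) (r - s)) (X (s + (r - s))) = _
      unfold cut
      rw [indicator_of_mem hr', add_sub_cancel,
        linL_apply L (hH.herm r (by linarith [hr.1]))]
    have hsub : ∀ e, s ≤ e → e ≤ u + t →
        IntervalIntegrable (fun r => lin L (H r) (X r)) volume s e := fun e h1 h2 =>
      hint.mono_set (by rw [uIcc_of_le h1, uIcc_of_le (h1.trans h2)]; exact Icc_subset_Icc le_rfl h2)
    have h3 : X (u + t) = X u + ∫ r in u..(u + t), lin L (H r) (X r) := by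
      rw [hX.eq (u + t) (by linarith [ht.1]), hX.eq u hsu, add_assoc,
        intervalIntegral.integral_add_adjacent_intervals (hsub u hsu (by linarith [ht.1]))
          ((hsub u hsu (by linarith [ht.1])).symm.trans hint)]
    show X (u + t) = X (u + 0) + _
    rw [h3, add_zero]
    congr 1
    have h4 : ∫ r in u..(u + t), lin L (H r) (X r) =
        ∫ r in (0 : ℝ)..t, lin L (H (u + r)) (X (u + r)) := by
      have := intervalIntegral.integral_comp_add_left (a := 0) (b := t)
        (fun r => lin L (H r) (X r)) u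
      rw [add_zero] at this
      exact this.symm
    rw [h4]
    refine intervalIntegral.integral_congr fun r hr => ?_
    rw [uIcc_of_le ht.1] at hr
    have hr' : r ∈ Icc 0 T := ⟨hr.1, hr.2.trans ht.2⟩
    show lin L (H (u + r)) (X (u + r)) = linL L (cut H u T r) (X (u + r))
    unfold cut
    rw [indicator_of_mem hr', linL_apply L (hH.herm _ (add_nonneg hu hr.1))]

lemma GSol.dens {H : ℝ → M d} (hH : Adm H) {s : ℝ} (hs : 0 ≤ s) {X : ℝ → M d}
    (hX : GSol L H s X) (h0 : Dens (X s)) : ∀ t, s ≤ t → Dens (X t) := by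
  intro t ht
  have h1 := hX.shift hH hs le_rfl (T := t - s) (sub_nonneg.2 ht)
  obtain ⟨C, hB⟩ := cut_bh (T := t - s) hH hs
  have hm : t - s ∈ Icc 0 (t - s) := ⟨sub_nonneg.2 ht, le_rfl⟩
  have h2 := psd_sol hB (sub_nonneg.2 ht) h1 (by simpa using h0.1) (t - s) hm
  have h3 := trace_sol L hB (sub_nonneg.2 ht) h1 (t - s) hm
  simp only [add_sub_cancel, add_zero] at h2 h3
  exact ⟨h2, h3.trans h0.2⟩

/-- the exponential bound -/
theorem expo (hL : Gen L) (hd : 0 < d) : ∃ K : ℝ, 0 < K ∧ ∃ γ : ℝ, 0 < γ ∧ ∀ H : ℝ → M d, Adm H →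
    ∀ s, 0 ≤ s → ∀ X Y : ℝ → M d, GSol L H s X → GSol L H s Y → Dens (X s) → Dens (Y s) →
      ∀ t, s ≤ t → tn (X t - Y t) ≤ K * Real.exp (-γ * (t - s)) * tn (X s - Y s) := by
  obtain ⟨c, hc, hdo⟩ := doeblin hL (T := 1) one_pos
  -- contraction factor
  set θ : ℝ := max (1 - c * d) (1 / 2) with hθ
  have hd' : (0 : ℝ) < d := by exact_mod_cast hd
  have hθ0 : 0 < θ := lt_max_of_lt_right (by norm_num)
  have hθ1 : θ < 1 := by
    refine max_lt ?_ (by norm_num)
    have := mul_pos hc hd'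
    linarith
  have hlog : Real.log θ < 0 := Real.log_neg hθ0 hθ1
  refine ⟨θ⁻¹, by positivity, -Real.log θ, by linarith, ?_⟩
  intro H hH s hs X Y hX hY hX0 hY0 t ht
  have hstep : ∀ u, s ≤ u → tn (X (u + 1) - Y (u + 1)) ≤ θ * tn (X u - Y u) := by
    intro u hu
    obtain ⟨C, hB⟩ := cut_bh (T := 1) hH (hs.trans hu)
    have h1 := contr hB zero_le_one (hdo _ _ hB) (hX.shift hH hs hu zero_le_one)
      (hY.shift hH hs hu zero_le_one) (by simpa using hX.dens hH hs hX0 u hu)
      (by simpa using hY.dens hH hs hY0 u hu)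
    simp only [add_zero] at h1
    exact h1.trans (mul_le_mul_of_nonneg_right (le_max_left _ _) (tn_nonneg _))
  have hrest : ∀ u T, s ≤ u → 0 ≤ T → tn (X (u + T) - Y (u + T)) ≤ tn (X u - Y u) := by
    intro u T hu hT
    obtain ⟨C, hB⟩ := cut_bh (T := T) hH (hs.trans hu)
    have h1 := contr (c := 0) hB hT (fun Z hZ hZ0 _ => by
      rw [zero_smul, sub_zero]
      exact psd_sol hB hT hZ hZ0 T ⟨hT, le_rfl⟩) (hX.shift hH hs hu hT)
      (hY.shift hH hs hu hT) (by simpa using hX.dens hH hs hX0 u hu)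
      (by simpa using hY.dens hH hs hY0 u hu)
    simp only [add_zero, zero_mul, sub_zero, one_mul] at h1
    exact h1
  have hpow : ∀ k : ℕ, tn (X (s + k) - Y (s + k)) ≤ θ ^ k * tn (X s - Y s) := by
    intro k
    induction k with
    | zero => simp
    | succ k ih =>
      have h1 := hstep (s + k) (by linarith [Nat.cast_nonneg (α := ℝ) k])
      have h2 : s + ((k + 1 : ℕ) : ℝ) = s + k + 1 := by push_cast; ring
      rw [h2]
      calc _ ≤ θ * tn (X (s + k) - Y (s + k)) := h1
        _ ≤ θ * (θ ^ k * tn (X s - Y s)) := mul_le_mul_of_nonneg_left ih hθ0.le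
        _ = _ := by ring
  set k := ⌊t - s⌋₊ with hk
  have hk1 : (k : ℝ) ≤ t - s := Nat.floor_le (sub_nonneg.2 ht)
  have hk2 : t - s < k + 1 := Nat.lt_floor_add_one _
  have h1 := hrest (s + k) (t - (s + k)) (by linarith [Nat.cast_nonneg (α := ℝ) k]) (by linarith)
  rw [add_sub_cancel] at h1
  refine (h1.trans (hpow k)).trans (mul_le_mul_of_nonneg_right ?_ (tn_nonneg _))
  have h2 : θ ^ k = Real.exp (Real.log θ * k) := by
    rw [mul_comm, Real.exp_nat_mul, Real.exp_log hθ0]
  have h3 : θ⁻¹ = Real.exp (-Real.log θ) := by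
    rw [Real.exp_neg, Real.exp_log hθ0]
  rw [h2, h3, ← Real.exp_add]
  refine Real.exp_le_exp.2 ?_
  nlinarith

end Pool.Agent.Q234.JO
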