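import Pool.Agent.Q234.JO.Inter

/-!
# Positivity and the Doeblin minorisation (helper234)
-/

set_option autoImplicit false

noncomputable section

namespace Pool.Agent.Q234.JO

open Matrix MeasureTheory Set Filter Topology
open scoped ComplexOrder Matrix.Norms.L2Operator

variable {d m : ℕ} {L : Fin m → M d} {H : ℝ → M d} {C : ℝ} {V W : ℝ → M d} {T : ℝ}

/-- the interaction picture state -/
lemma Z_lipD (hH : BH H C) (hT : 0 ≤ T)
    (hW : LipD W (fun t => W t * (-GG L (H t))) 0 T) {X : ℝ → M d}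
    (hX : IsSol (fun t => linL L (H t)) T X) (hWV : ∀ t ∈ Icc 0 T, W t * V t = 1) :
    ∃ f : ℝ → M d, LipD (fun t => W t * X t * (W t)ᴴ) f 0 T ∧
      ∀ t ∈ Icc 0 T, f t = Phi L (V t) (W t) (W t * X t * (W t)ᴴ) := by
  refine ⟨_, LipD.mmul hT (LipD.mmul hT hW (hX.lipD (fam_lin L hH) hT)) hW.mstar,
    fun t ht => ?_⟩
  have hVW : V t * W t = 1 := mul_eq_one_comm.1 (hWV t ht)
  have hVW' : (W t)ᴴ * (V t)ᴴ = 1 := by rw [← conjTranspose_mul, hVW, conjTranspose_one]
  have e1 : Phi L (V t) (W t) (W t * X t * (W t)ᴴ) =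
      W t * (∑ j, L j * X t * (L j)ᴴ) * (W t)ᴴ := by
    unfold Phi
    rw [Finset.mul_sum, Finset.sum_mul]
    refine Finset.sum_congr rfl fun j _ => ?_
    rw [conjTranspose_mul, conjTranspose_mul]
    calc W t * L j * V t * (W t * X t * (W t)ᴴ) * ((V t)ᴴ * ((L j)ᴴ * (W t)ᴴ))
        = W t * L j * (V t * W t) * X t * ((W t)ᴴ * (V t)ᴴ) * ((L j)ᴴ * (W t)ᴴ) := by
          simp only [Matrix.mul_assoc]
      _ = W t * (L j * X t * (L j)ᴴ) * (W t)ᴴ := by
          rw [hVW, hVW']
          simp only [Matrix.mul_assoc, Matrix.one_mul]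
  rw [e1, linL_apply L (hH.herm t), lin_eq L (hH.herm t), conjTranspose_mul, conjTranspose_neg]
  simp only [mul_add, add_mul, mul_neg, neg_mul, mul_assoc]
  abel

/-- the cone of positive semidefinite matrices: integrals -/
lemma psd_add_int {a b : ℝ} (hab : a ≤ b) {X : M d} (hX : X.PosSemidef) {g : ℝ → M d}
    (hg : IntervalIntegrable g volume a b) (hgp : ∀ r, (g r).PosSemidef) :
    (X + ∫ r in a..b, g r).PosSemidef := by
  rw [psd_iff]
  constructor
  · refine hX.1.add ?_
    have h1 := ContinuousLinearMap.intervalIntegral_comp_comm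
      (starL' ℝ : M d ≃L[ℝ] M d).toContinuousLinearMap hg
    have h2 : ∀ r, (starL' ℝ : M d ≃L[ℝ] M d).toContinuousLinearMap (g r) = g r := fun r =>
      (hgp r).1
    simp only [h2] at h1
    exact h1.symm
  · intro v
    rw [q_add]
    have h1 := ContinuousLinearMap.intervalIntegral_comp_comm (qL v) hg
    simp only [qL_apply] at h1
    rw [← h1]
    exact add_nonneg (((psd_iff _).1 hX).2 v)
      (intervalIntegral.integral_nonneg hab fun r _ => ((psd_iff _).1 (hgp r)).2 v)

lemma isClosed_psd : IsClosed {X : M d | X.PosSemidef} := by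
  refine IsSeqClosed.isClosed fun x p hx hp => ?_
  exact psd_lim hp hx

/-- positivity in the interaction picture -/
lemma Z_psd (hT : 0 ≤ T) (hVc : Continuous V) (hWc : Continuous W) {Z f : ℝ → M d}
    (hZ : LipD Z f 0 T) (hf : ∀ t ∈ Icc 0 T, f t = Phi L (V t) (W t) (Z t))
    (h0 : (Z 0).PosSemidef) : ∀ t ∈ Icc 0 T, (Z t).PosSemidef := by
  set pr : ℝ → ℝ := fun t => (Set.projIcc 0 T hT t : ℝ) with hpr
  have hprc : Continuous pr := continuous_subtype_val.comp continuous_projIcc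
  have hprm : ∀ t, pr t ∈ Icc 0 T := fun t => (Set.projIcc 0 T hT t).2
  have hpre : ∀ t ∈ Icc 0 T, pr t = t := fun t ht => by
    simp only [hpr]
    rw [Set.projIcc_of_mem hT ht]
  obtain ⟨CV, hCV⟩ := (isCompact_Icc (a := (0 : ℝ)) (b := T)).exists_bound_of_continuousOn
    hVc.continuousOn
  obtain ⟨CW, hCW⟩ := (isCompact_Icc (a := (0 : ℝ)) (b := T)).exists_bound_of_continuousOn
    hWc.continuousOn
  have hA : Fam (fun t => kraus (fun j => W (pr t) * L j * V (pr t)))
      (∑ j, (CW * ‖L j‖ * CV) * (CW * ‖L j‖ * CV)) := by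
    refine ⟨fun Y hY => ?_, fun t => ?_⟩
    · refine Continuous.aestronglyMeasurable ?_
      simp only [kraus_apply]
      refine continuous_finsetSum _ fun j _ => ?_
      have h1 : Continuous fun r => W (pr r) * L j * V (pr r) :=
        ((hWc.comp hprc).mul continuous_const).mul (hVc.comp hprc)
      exact (h1.mul hY).mul ((continuous_id.matrix_conjTranspose).comp h1)
    · refine (kraus_norm _).trans (Finset.sum_le_sum fun j _ => ?_)
      have h1 := hCV _ (hprm t)
      have h2 := hCW _ (hprm t)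
      have h3 : ‖W (pr t) * L j * V (pr t)‖ ≤ CW * ‖L j‖ * CV :=
        (norm_mul_le _ _).trans (mul_le_mul ((norm_mul_le _ _).trans
          (mul_le_mul_of_nonneg_right h2 (norm_nonneg _))) h1 (norm_nonneg _)
          (mul_nonneg ((norm_nonneg _).trans h2) (norm_nonneg _)))
      exact mul_le_mul h3 h3 (norm_nonneg _) ((norm_nonneg _).trans h3)
  have hZs : IsSol (fun t => kraus (fun j => W (pr t) * L j * V (pr t))) T Z :=
    IsSol.of_lipD hZ fun t ht => by
      rw [hf t ht, kraus_apply, hpre t ht]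
      rfl
  obtain ⟨Y, hY0, -, hY, hYp⟩ := hA.exists_sol_cone (Z 0) {X : M d | X.PosSemidef} isClosed_psd
    PosSemidef.zero h0 (fun c hc x hx => hx.smul hc)
    (fun a b hab x hx g hg hgp => psd_add_int hab hx hg hgp)
    (fun t x hx => by
      show (kraus _ x).PosSemidef
      rw [kraus_apply]
      exact posSemidef_sum _ fun _ _ => PosSemidef.mul_mul_conjTranspose_same hx _)
  intro t ht
  rw [hZs.unique hA (hY T) hY0.symm t ht]
  exact hYp t

/-- recovering the state -/
lemma X_of_Z {X Vt Wt : M d} (h : Wt * Vt = 1) : X = Vt * (Wt * X * Wtᴴ) * Vtᴴ := by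
  have hVW : Vt * Wt = 1 := mul_eq_one_comm.1 h
  have hVW' : Wtᴴ * Vtᴴ = 1 := by rw [← conjTranspose_mul, hVW, conjTranspose_one]
  calc X = (Vt * Wt) * X * (Wtᴴ * Vtᴴ) := by rw [hVW, hVW', Matrix.one_mul, Matrix.mul_one]
    _ = _ := by simp only [Matrix.mul_assoc]

/-- positivity of the evolution -/
theorem psd_sol (hH : BH H C) (hT : 0 ≤ T) {X : ℝ → M d}
    (hX : IsSol (fun t => linL L (H t)) T X) (h0 : (X 0).PosSemidef) :
    ∀ t ∈ Icc 0 T, (X t).PosSemidef := by
  obtain ⟨V, W, hVc, hWc, hV0, hW0, hV, hW⟩ := exists_VW L hH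
  have hWV := WV_one hT hV0 hW0 (hV T hT) (hW T hT)
  obtain ⟨f, hZ, hf⟩ := Z_lipD (V := V) hH hT (hW T hT) hX hWV
  have hZp := Z_psd hT hVc hWc hZ hf (by
    rw [hW0, conjTranspose_one, Matrix.one_mul, Matrix.mul_one]
    exact h0)
  intro t ht
  have h1 := X_of_Z (X := X t) (hWV t ht)
  rw [h1]
  exact (hZp t ht).mul_mul_conjTranspose_same _

/-- the Doeblin minorisation -/
theorem doeblin (hL : Gen L) (hT : 0 < T) : ∃ c : ℝ, 0 < c ∧ ∀ (H : ℝ → M d) (C : ℝ), BH H C →
    ∀ X : ℝ → M d, IsSol (fun t => linL L (H t)) T X → (X 0).PosSemidef →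
      (trace (X 0)).re = 1 → (X T - c • (1 : M d)).PosSemidef := by
  set b := Real.exp (‖KK L‖ * T) with hb
  have hb1 : 1 ≤ b := Real.one_le_exp (mul_nonneg (norm_nonneg _) hT.le)
  obtain ⟨c, hc, huni⟩ := uniform hL hT (b * b)
  refine ⟨c * b⁻¹, by positivity, fun H C hH X hX h0 htr => ?_⟩
  obtain ⟨V, W, hVc, hWc, hV0, hW0, hV, hW⟩ := exists_VW L hH
  have hWV := WV_one hT.le hV0 hW0 (hV T hT.le) (hW T hT.le)
  obtain ⟨f, hZ, hf⟩ := Z_lipD (V := V) hH hT.le (hW T hT.le) hX hWV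
  have hZ0 : W 0 * X 0 * (W 0)ᴴ = X 0 := by
    rw [hW0, conjTranspose_one, Matrix.one_mul, Matrix.mul_one]
  have hZp := Z_psd hT.le hVc hWc hZ hf (by rw [hZ0]; exact h0)
  have hVb := V_bd hH hT.le hV0 (hV T hT.le)
  have hWb := W_bd hH hT.le hW0 (hW T hT.le)
  have hXp := psd_sol hH hT.le hX h0
  have hXt := trace_sol L hH hT.le hX
  have hXb : ∀ t ∈ Icc 0 T, ‖X t‖ ≤ 1 := fun t ht => by
    have := norm_le_trace (hXp t ht)
    rwa [hXt t ht, htr] at this
  have hbb : b ≤ b * b := by nlinarith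
  let τ : Traj L T (b * b) :=
    { S := V
      W := W
      Z := fun t => W t * X t * (W t)ᴴ
      hS := hVc.continuousOn
      hW := hWc.continuousOn
      hZ := hZ.cont
      WS := hWV
      bS := fun t ht => (hVb t ht).trans (hb1.trans hbb)
      bW := fun t ht => (hWb t ht).trans hbb
      bZ := fun t ht => by
        have h1 := hWb t ht
        have h2 := hXb t ht
        have h3 : ‖W t * X t‖ ≤ b * 1 := (norm_mul_le _ _).trans
          (mul_le_mul h1 h2 (norm_nonneg _) (by positivity))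
        refine (norm_mul_le _ _).trans (mul_le_mul (h3.trans (mul_one b).le) ?_ (norm_nonneg _)
          (by positivity))
        rw [l2_opNorm_conjTranspose]
        exact h1
      psd := hZp
      tr := by
        show (trace (W 0 * X 0 * (W 0)ᴴ)).re = 1
        rw [hZ0, htr]
      eq := fun a ha c hc => by
        show W c * X c * (W c)ᴴ - W a * X a * (W a)ᴴ = _
        rw [hZ.ftc a ha, hZ.ftc c hc]
        have hia : ∀ e ∈ Icc 0 T, IntervalIntegrable f volume 0 e := fun e he =>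
          hZ.int.mono_set (by
            rw [uIcc_of_le he.1, uIcc_of_le hT.le]; exact Icc_subset_Icc le_rfl he.2)
        rw [add_sub_add_left_eq_sub,
          intervalIntegral.integral_interval_sub_left (hia c hc) (hia a ha)]
        refine intervalIntegral.integral_congr fun r hr => ?_
        refine hf r ?_
        rcases le_total a c with h | h
        · rw [uIcc_of_le h] at hr; exact ⟨ha.1.trans hr.1, hr.2.trans hc.2⟩
        · rw [uIcc_of_ge h] at hr; exact ⟨hc.1.trans hr.1, hr.2.trans ha.2⟩ }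
  have h1 : (W T * X T * (W T)ᴴ - c • (1 : M d)).PosSemidef := huni τ
  have hTm : T ∈ Icc 0 T := ⟨hT.le, le_rfl⟩
  have h2 := h1.mul_mul_conjTranspose_same (V T)
  rw [mul_sub, sub_mul, ← X_of_Z (hWV T hTm)] at h2
  -- V Vᴴ ≥ b⁻¹
  have h3 := W_psd hH hT.le hW0 (hW T hT.le) T hTm
  have h4 := (h3.mul_mul_conjTranspose_same (V T)).smul (show (0 : ℝ) ≤ c * b⁻¹ by positivity)
  have hVW : V T * W T = 1 := mul_eq_one_comm.1 (hWV T hTm)
  have hVW' : (W T)ᴴ * (V T)ᴴ = 1 := by rw [← conjTranspose_mul, hVW, conjTranspose_one]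
  have h5 : V T * (b • (1 : M d) - W T * (W T)ᴴ) * (V T)ᴴ =
      b • (V T * (V T)ᴴ) - 1 := by
    rw [mul_sub, sub_mul]
    congr 1
    · rw [Matrix.mul_smul, Matrix.smul_mul, Matrix.mul_one]
    · calc V T * (W T * (W T)ᴴ) * (V T)ᴴ = (V T * W T) * ((W T)ᴴ * (V T)ᴴ) := by
            simp only [Matrix.mul_assoc]
        _ = 1 := by rw [hVW, hVW', Matrix.one_mul]
  rw [h5, smul_sub, smul_smul] at h4
  have h6 : c * b⁻¹ * b = c := by field_simp
  rw [h6] at h4
  have h7 := h2.add h4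
  have h8 : X T - V T * c • (1 : M d) * (V T)ᴴ +
      (c • (V T * (V T)ᴴ) - (c * b⁻¹) • (1 : M d)) = X T - (c * b⁻¹) • (1 : M d) := by
    rw [Matrix.mul_smul, Matrix.smul_mul, Matrix.mul_one]
    abel
  rwa [h8] at h7

end Pool.Agent.Q234.JO
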