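import Pool.Agent.Q234.JO.Contr

/-!
# Existence, uniqueness and linearity of the evolution (helper234)
-/

set_option autoImplicit false

noncomputable section

namespace Pool.Agent.Q234.JO

open Matrix MeasureTheory Set Filter Topology
open scoped ComplexOrder Matrix.Norms.L2Operator

variable {d m : ℕ} {L : Fin m → M d} {H : ℝ → M d}

lemma lin_int (hH : Adm H) {s t : ℝ} (hs : 0 ≤ s) (hst : s ≤ t) {X : ℝ → M d}
    (hX : ContinuousOn X (Ici s)) :
    IntervalIntegrable (fun r => lin L (H r) (X r)) volume s t := by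
  obtain ⟨C, hB⟩ := cut_bh (T := t - s) hH hs
  have h1 : IntervalIntegrable (fun r => linL L (cut H s (t - s) r) (X (s + r))) volume 0
      (t - s) := by
    refine ((fam_lin L hB).int (T := t - s) (X := fun r => X (s + r)) (sub_nonneg.2 hst) ?_)
    refine ContinuousOn.comp hX (by fun_prop) fun r hr => ?_
    show s ≤ s + r
    linarith [hr.1]
  have h2 := (h1.comp_sub_right s)
  simp only [zero_add, sub_add_cancel] at h2
  refine h2.congr ?_
  rw [uIoc_of_le hst]
  intro r hr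
  have hr' : r - s ∈ Icc 0 (t - s) := ⟨by linarith [hr.1], by linarith [hr.2]⟩
  show linL L (cut H s (t - s) (r - s)) (X (s + (r - s))) = _
  unfold cut
  rw [indicator_of_mem hr', add_sub_cancel, linL_apply L (hH.herm r (by linarith [hr.1]))]

lemma GSol.unique (hH : Adm H) {s : ℝ} (hs : 0 ≤ s) {X Y : ℝ → M d}
    (hX : GSol L H s X) (hY : GSol L H s Y) (h0 : X s = Y s) : ∀ t, s ≤ t → X t = Y t := by
  intro t ht
  have h1 := hX.shift hH hs le_rfl (T := t - s) (sub_nonneg.2 ht)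
  have h2 := hY.shift hH hs le_rfl (T := t - s) (sub_nonneg.2 ht)
  obtain ⟨C, hB⟩ := cut_bh (T := t - s) hH hs
  have h3 := h1.unique (fam_lin L hB) h2 (by simpa using h0) (t - s)
    ⟨sub_nonneg.2 ht, le_rfl⟩
  simpa using h3

lemma lin_add (L : Fin m → M d) (H X Y : M d) : lin L H (X + Y) = lin L H X + lin L H Y := by
  unfold lin
  rw [mul_add, add_mul, add_sub_add_comm, smul_add]
  have h1 : ∀ j, (L j * (X + Y) * (L j)ᴴ -
      (1 / 2 : ℂ) • ((L j)ᴴ * L j * (X + Y) + (X + Y) * ((L j)ᴴ * L j))) =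
      (L j * X * (L j)ᴴ - (1 / 2 : ℂ) • ((L j)ᴴ * L j * X + X * ((L j)ᴴ * L j))) +
      (L j * Y * (L j)ᴴ - (1 / 2 : ℂ) • ((L j)ᴴ * L j * Y + Y * ((L j)ᴴ * L j))) := by
    intro j
    rw [mul_add, add_mul, mul_add, add_mul, smul_add, smul_add, smul_add, smul_add, smul_add]
    abel
  simp only [h1]
  rw [Finset.sum_add_distrib]
  abel

lemma lin_smul (L : Fin m → M d) (H : M d) (c : ℂ) (X : M d) :
    lin L H (c • X) = c • lin L H X := by
  unfold lin
  have h1 : ∀ j, (L j * (c • X) * (L j)ᴴ -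
      (1 / 2 : ℂ) • ((L j)ᴴ * L j * (c • X) + (c • X) * ((L j)ᴴ * L j))) =
      c • (L j * X * (L j)ᴴ - (1 / 2 : ℂ) • ((L j)ᴴ * L j * X + X * ((L j)ᴴ * L j))) := by
    intro j
    rw [Matrix.mul_smul, Matrix.smul_mul, Matrix.mul_smul, Matrix.smul_mul, ← smul_add, smul_sub,
      smul_comm (1 / 2 : ℂ) c]
  simp only [h1]
  rw [← Finset.smul_sum, smul_add, Matrix.mul_smul, Matrix.smul_mul, ← smul_sub,
    smul_comm (-Complex.I) c]

lemma GSol.add (hH : Adm H) {s : ℝ} (hs : 0 ≤ s) {X Y : ℝ → M d}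
    (hX : GSol L H s X) (hY : GSol L H s Y) : GSol L H s (fun t => X t + Y t) := by
  refine ⟨hX.cont.add hY.cont, fun t ht => ?_⟩
  simp only [lin_add]
  rw [intervalIntegral.integral_add (lin_int hH hs ht hX.cont) (lin_int hH hs ht hY.cont),
    hX.eq t ht, hY.eq t ht]
  abel

lemma GSol.csmul {s : ℝ} (c : ℂ) {X : ℝ → M d}
    (hX : GSol L H s X) : GSol L H s (fun t => c • X t) := by
  refine ⟨hX.cont.const_smul c, fun t ht => ?_⟩
  simp only [lin_smul]
  rw [intervalIntegral.integral_smul, hX.eq t ht, smul_add]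

theorem exists_gsol (hH : Adm H) {s : ℝ} (hs : 0 ≤ s) (X₀ : M d) :
    ∃ X : ℝ → M d, GSol L H s X ∧ X s = X₀ := by
  have hex : ∀ n : ℕ, ∃ X : ℝ → M d, X 0 = X₀ ∧ Continuous X ∧
      IsSol (fun t => linL L (cut H s n t)) n X := by
    intro n
    obtain ⟨C, hB⟩ := cut_bh (T := n) hH hs
    obtain ⟨X, h0, hc, hX⟩ := (fam_lin L hB).exists_sol X₀
    exact ⟨X, h0, hc, hX n⟩
  choose x hx0 hxc hx using hex
  -- consistency
  have hcons : ∀ n k : ℕ, n ≤ k → ∀ t ∈ Icc (0 : ℝ) n, x n t = x k t := by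
    intro n k hnk t ht
    obtain ⟨C, hB⟩ := cut_bh (T := n) hH hs
    have hnk' : (n : ℝ) ≤ k := by exact_mod_cast hnk
    have h1 : IsSol (fun t => linL L (cut H s n t)) n (x k) := by
      refine ⟨(hxc k).continuousOn, fun r hr => ?_⟩
      rw [(hx k).eq r ⟨hr.1, hr.2.trans hnk'⟩]
      congr 1
      refine intervalIntegral.integral_congr fun u hu => ?_
      rw [uIcc_of_le hr.1] at hu
      have hu1 : u ∈ Icc (0 : ℝ) n := ⟨hu.1, hu.2.trans hr.2⟩
      have hu2 : u ∈ Icc (0 : ℝ) k := ⟨hu.1, hu1.2.trans hnk'⟩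
      show linL L (cut H s k u) _ = linL L (cut H s n u) _
      unfold cut
      rw [indicator_of_mem hu1, indicator_of_mem hu2]
    exact (hx n).unique (fam_lin L hB) h1 (by rw [hx0, hx0]) t ht
  let X : ℝ → M d := fun t => x ⌈t - s⌉₊ (t - s)
  have hXn : ∀ n : ℕ, ∀ t ∈ Icc s (s + n), X t = x n (t - s) := by
    intro n t ht
    have h1 : 0 ≤ t - s := sub_nonneg.2 ht.1
    have h2 : ⌈t - s⌉₊ ≤ n := Nat.ceil_le.2 (by linarith [ht.2])
    exact hcons _ _ h2 _ ⟨h1, Nat.le_ceil _⟩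
  have hX0 : X s = X₀ := by
    simp only [X, sub_self, Nat.ceil_zero, hx0]
  refine ⟨X, ⟨?_, fun t ht => ?_⟩, hX0⟩
  · intro t ht
    obtain ⟨n, hn⟩ := exists_nat_gt (t - s)
    have h1 : ContinuousWithinAt (fun t => x n (t - s)) (Ici s) t :=
      ((hxc n).comp (by fun_prop)).continuousWithinAt
    refine h1.congr_of_eventuallyEq ?_ (hXn n t ⟨ht, by linarith⟩)
    have h2 : Iio (s + n) ∈ 𝓝 t := Iio_mem_nhds (by linarith)
    filter_upwards [mem_nhdsWithin_of_mem_nhds h2, self_mem_nhdsWithin] with u hu1 hu2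
    exact hXn n u ⟨hu2, le_of_lt hu1⟩
  · obtain ⟨n, hn⟩ := exists_nat_gt (t - s)
    have ht' : t - s ∈ Icc (0 : ℝ) n := ⟨sub_nonneg.2 ht, hn.le⟩
    rw [hXn n t ⟨ht, by linarith⟩, (hx n).eq _ ht', hX0, hx0]
    congr 1
    have h1 : ∫ r in s..t, lin L (H r) (X r) =
        ∫ r in (0 : ℝ)..(t - s), lin L (H (s + r)) (X (s + r)) := by
      have := intervalIntegral.integral_comp_add_left (a := 0) (b := t - s)
        (fun r => lin L (H r) (X r)) s
      rw [add_zero, add_sub_cancel] at this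
      exact this.symm
    rw [h1]
    refine intervalIntegral.integral_congr fun r hr => ?_
    rw [uIcc_of_le ht'.1] at hr
    have hr1 : r ∈ Icc (0 : ℝ) n := ⟨hr.1, hr.2.trans ht'.2⟩
    show linL L (cut H s n r) (x n r) = lin L (H (s + r)) (X (s + r))
    unfold cut
    rw [indicator_of_mem hr1, linL_apply L (hH.herm _ (add_nonneg hs hr.1)),
      hXn n (s + r) ⟨by linarith [hr.1], by linarith [hr1.2]⟩, add_sub_cancel_left]

end Pool.Agent.Q234.JO
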