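import Pool.Agent.Q234.JO.Ode
import Pool.Agent.Q234.JO.Ac

/-!
# Families of operators and solutions (helper234)
-/

set_option autoImplicit false

noncomputable section

namespace Pool.Agent.Q234.JO

open MeasureTheory Set Filter Topology

variable {E : Type*} [NormedAddCommGroup E] [NormedSpace ℝ E] [CompleteSpace E]

/-- a bounded measurable family of operators -/
structure Fam (A : ℝ → E →L[ℝ] E) (M : ℝ) : Prop where
  meas : ∀ Y : ℝ → E, Continuous Y → AEStronglyMeasurable (fun r => A r (Y r)) volume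
  bd : ∀ t, ‖A t‖ ≤ M

/-- solution on `[0, T]` -/
structure IsSol (A : ℝ → E →L[ℝ] E) (T : ℝ) (X : ℝ → E) : Prop where
  cont : ContinuousOn X (Icc 0 T)
  eq : ∀ t ∈ Icc 0 T, X t = X 0 + ∫ r in (0 : ℝ)..t, A r (X r)

variable {A : ℝ → E →L[ℝ] E} {M T : ℝ} {X Y : ℝ → E}

omit [CompleteSpace E] in
lemma Fam.int (hA : Fam A M) (hT : 0 ≤ T) (hX : ContinuousOn X (Icc 0 T)) :
    IntervalIntegrable (fun r => A r (X r)) volume 0 T := by
  let Y : ℝ → E := Set.IccExtend hT ((Icc 0 T).domRestrict X)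
  have hY : Continuous Y := (hX.domRestrict).Icc_extend'
  have hYeq : ∀ r ∈ Icc 0 T, Y r = X r := fun r hr => by
    simp only [Y]
    rw [Set.IccExtend_of_mem hT _ hr]
    rfl
  obtain ⟨C, hC⟩ := isCompact_Icc.exists_bound_of_continuousOn hX
  have h1 : IntervalIntegrable (fun r => A r (Y r)) volume 0 T := by
    have h2 : IntervalIntegrable (fun _ : ℝ => M * C) volume 0 T := intervalIntegrable_const
    refine h2.mono_fun ((hA.meas Y hY).mono_measure Measure.restrict_le_self) ?_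
    rw [uIoc_of_le hT]
    filter_upwards [ae_restrict_mem measurableSet_Ioc] with r hr
    have hr' : r ∈ Icc 0 T := ⟨hr.1.le, hr.2⟩
    have hM0 : 0 ≤ M := (norm_nonneg _).trans (hA.bd 0)
    rw [hYeq r hr']
    calc ‖A r (X r)‖ ≤ M * ‖X r‖ := (A r).le_of_opNorm_le (hA.bd r) _
      _ ≤ M * C := mul_le_mul_of_nonneg_left (hC r hr') hM0
      _ ≤ ‖M * C‖ := le_abs_self _
  refine h1.congr ?_
  rw [uIoc_of_le hT]
  intro r hr
  show A r (Y r) = A r (X r)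
  rw [hYeq r ⟨hr.1.le, hr.2⟩]

lemma IsSol.lipD (hX : IsSol A T X) (hA : Fam A M) (hT : 0 ≤ T) :
    LipD X (fun r => A r (X r)) 0 T := by
  obtain ⟨C, hC⟩ := isCompact_Icc.exists_bound_of_continuousOn hX.cont
  have hM0 : 0 ≤ M := (norm_nonneg _).trans (hA.bd 0)
  refine LipD.of_integral (hA.int hT hX.cont) (K := M * C) (fun t ht => ?_) hX.eq
  exact ((A t).le_of_opNorm_le (hA.bd t) _).trans (mul_le_mul_of_nonneg_left (hC t ht) hM0)

omit [CompleteSpace E] in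
lemma IsSol.unique (hA : Fam A M) (hX : IsSol A T X) (hY : IsSol A T Y) (h0 : X 0 = Y 0) :
    ∀ t ∈ Icc 0 T, X t = Y t := by
  intro t ht
  have hint : ∀ {Z : ℝ → E}, ContinuousOn Z (Icc 0 T) → ∀ t ∈ Icc 0 T,
      IntervalIntegrable (fun r => A r (Z r)) volume 0 t := fun {Z} hZ t ht =>
    hA.int ht.1 (hZ.mono (Icc_subset_Icc le_rfl ht.2))
  exact sol_unique (x₀ := X 0) (fun t _ => hA.bd t) hX.cont hY.cont (hint hX.cont) (hint hY.cont)
    hX.eq (fun t ht => by rw [h0]; exact hY.eq t ht) t ht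

lemma Fam.exists_sol (hA : Fam A M) (x₀ : E) :
    ∃ X : ℝ → E, X 0 = x₀ ∧ Continuous X ∧ ∀ T, IsSol A T X := by
  obtain ⟨X, hX, he, -⟩ := JO.exists_sol x₀ hA.meas hA.bd 0 Set.univ isClosed_univ trivial trivial
    (fun _ _ _ _ => trivial) (fun _ _ _ _ _ _ _ _ => trivial) (fun _ _ _ => trivial)
  have h0 : X 0 = x₀ := by
    have := he 0 le_rfl
    simpa using this
  refine ⟨X, h0, hX, fun T => ⟨hX.continuousOn, fun t ht => ?_⟩⟩
  rw [h0]
  exact he t ht.1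

lemma Fam.exists_sol_cone (hA : Fam A M) (x₀ : E) (C : Set E) (hCc : IsClosed C)
    (hC0 : (0 : E) ∈ C) (hx : x₀ ∈ C)
    (hCs : ∀ c : ℝ, 0 ≤ c → ∀ x ∈ C, c • x ∈ C)
    (hCi : ∀ a b : ℝ, a ≤ b → ∀ x ∈ C, ∀ g : ℝ → E, IntervalIntegrable g volume a b →
      (∀ r, g r ∈ C) → x + ∫ r in a..b, g r ∈ C)
    (hAC : ∀ t, ∀ x ∈ C, A t x ∈ C) :
    ∃ X : ℝ → E, X 0 = x₀ ∧ Continuous X ∧ (∀ T, IsSol A T X) ∧ ∀ t, X t ∈ C := by
  obtain ⟨X, hX, he, hC⟩ := JO.exists_sol x₀ hA.meas hA.bd 0 C hCc hC0 hx hCs hCi hAC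
  have h0 : X 0 = x₀ := by
    have := he 0 le_rfl
    simpa using this
  refine ⟨X, h0, hX, fun T => ⟨hX.continuousOn, fun t ht => ?_⟩, hC⟩
  rw [h0]
  exact he t ht.1

/-- from a Lipschitz function with the right derivative -/
lemma IsSol.of_lipD {f : ℝ → E} (h : LipD X f 0 T) (hf : ∀ t ∈ Icc 0 T, f t = A t (X t)) :
    IsSol A T X := by
  refine ⟨h.cont, fun t ht => ?_⟩
  rw [h.ftc t ht]
  congr 1
  refine intervalIntegral.integral_congr fun r hr => ?_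
  rw [uIcc_of_le ht.1] at hr
  exact hf r ⟨hr.1, hr.2.trans ht.2⟩

end Pool.Agent.Q234.JO
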