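import Pool.Agent.Q234.JO.Lin

/-!
# Norm bounds through the Loewner order (helper234)
-/

set_option autoImplicit false

noncomputable section

namespace Pool.Agent.Q234.JO

open Matrix
open scoped ComplexOrder MatrixOrder Matrix.Norms.L2Operator

variable {d : ℕ}

lemma le_norm {A : M d} (hA : A.IsHermitian) : (‖A‖ • (1 : M d) - A).PosSemidef := by
  have h1 := IsSelfAdjoint.le_algebraMap_norm_self (a := A) hA.isSelfAdjoint
  rw [Algebra.algebraMap_eq_smul_one] at h1
  exact h1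

lemma norm_le_of_psd {A : M d} (hA : A.PosSemidef) {r : ℝ} (hr : 0 ≤ r)
    (h : (r • (1 : M d) - A).PosSemidef) : ‖A‖ ≤ r := by
  rw [CStarAlgebra.norm_le_iff_le_algebraMap A hr hA.nonneg, Algebra.algebraMap_eq_smul_one]
  exact h

lemma norm_le_of_sq {X : M d} {r : ℝ} (hr : 0 ≤ r)
    (h : ((r ^ 2) • (1 : M d) - Xᴴ * X).PosSemidef) : ‖X‖ ≤ r := by
  have h1 := norm_le_of_psd (posSemidef_conjTranspose_mul_self X) (by positivity) h
  rw [l2_opNorm_conjTranspose_mul_self, ← sq] at h1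
  exact (sq_le_sq₀ (norm_nonneg _) hr).1 h1

lemma norm_le_trace {A : M d} (hA : A.PosSemidef) : ‖A‖ ≤ (trace A).re := by
  rcases subsingleton_or_nontrivial (M d) with h | h
  · rw [Subsingleton.elim A 0]
    simp
  · have h1 := CStarAlgebra.norm_mem_spectrum_of_nonneg (a := A) hA.nonneg
    rw [hA.1.spectrum_real_eq_range_eigenvalues] at h1
    obtain ⟨i, hi⟩ := h1
    rw [hA.1.trace_eq_sum_eigenvalues, ← hi, Complex.re_sum]
    have h2 : ∀ j, (((hA.1.eigenvalues j : ℝ) : ℂ)).re = hA.1.eigenvalues j := fun j =>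
      Complex.ofReal_re _
    refine le_trans ?_ (Finset.single_le_sum (f := fun j => (((hA.1.eigenvalues j : ℝ) : ℂ)).re)
      (fun j _ => ?_) (Finset.mem_univ i))
    · show _ ≤ (((hA.1.eigenvalues i : ℝ) : ℂ)).re
      rw [h2]
    · show 0 ≤ (((hA.1.eigenvalues j : ℝ) : ℂ)).re
      rw [h2]
      exact hA.eigenvalues_nonneg j

end Pool.Agent.Q234.JO
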