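import Pool.Agent.Q234.JO.Mat
import Pool.Agent.Q234.JO.NB

/-!
# The interaction picture (helper234)
-/

set_option autoImplicit false

noncomputable section

namespace Pool.Agent.Q234.JO

open Matrix MeasureTheory Set Filter Topology
open scoped ComplexOrder Matrix.Norms.L2Operator

variable {d m : ℕ}

/-- trace as a continuous linear map -/
def trL : M d →L[ℝ] ℂ :=
  LinearMap.toContinuousLinearMap
    { toFun := fun X => trace X
      map_add' := fun X Y => trace_add X Y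
      map_smul' := fun c X => trace_smul c X }

@[simp] lemma trL_apply (X : M d) : trL X = trace X := rfl

lemma trace_lin (L : Fin m → M d) (H X : M d) : trace (lin L H X) = 0 := by
  unfold lin
  rw [trace_add, trace_smul, trace_sub, trace_mul_comm H X, sub_self, smul_zero, zero_add,
    trace_sum]
  refine Finset.sum_eq_zero fun j _ => ?_
  rw [trace_sub, trace_smul, trace_add, trace_mul_comm X ((L j)ᴴ * L j),
    trace_mul_comm (L j * X) (L j)ᴴ, ← Matrix.mul_assoc, ← two_smul ℂ, smul_smul]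
  norm_num

lemma trace_sol (L : Fin m → M d) {H : ℝ → M d} {C T : ℝ} (hH : BH H C) (hT : 0 ≤ T)
    {X : ℝ → M d} (hX : IsSol (fun t => linL L (H t)) T X) :
    ∀ t ∈ Icc 0 T, trace (X t) = trace (X 0) := by
  intro t ht
  have h1 := ((hX.lipD (fam_lin L hH) hT).clm trL).ftc t ht
  have h2 : ∀ r, trL (linL L (H r) (X r)) = 0 := fun r => by
    rw [linL_apply L (hH.herm r), trL_apply, trace_lin]
  simp only [h2, trL_apply] at h1
  rw [h1]
  simp

lemma exp_lipD (κ T : ℝ) (_hT : 0 ≤ T) :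
    LipD (fun t : ℝ => Real.exp (-κ * t)) (fun t => -κ * Real.exp (-κ * t)) 0 T := by
  have hc : Continuous fun t : ℝ => -κ * Real.exp (-κ * t) := by fun_prop
  obtain ⟨K, hK⟩ := (isCompact_Icc (a := (0 : ℝ)) (b := T)).exists_bound_of_continuousOn hc.continuousOn
  refine LipD.of_integral (x₀ := 1) (hc.intervalIntegrable _ _) hK fun t _ => ?_
  have h1 : ∀ r ∈ uIcc 0 t, HasDerivAt (fun r : ℝ => Real.exp (-κ * r)) (-κ * Real.exp (-κ * r)) r := by
    intro r _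
    have h2 : HasDerivAt (fun r : ℝ => -κ * r) (-κ) r := by
      simpa using (hasDerivAt_id r).const_mul (-κ)
    exact h2.exp.congr_deriv (by ring)
  rw [intervalIntegral.integral_eq_sub_of_hasDerivAt h1 (hc.intervalIntegrable _ _)]
  simp

/-- the two propagators -/
theorem exists_VW (L : Fin m → M d) {H : ℝ → M d} {C : ℝ} (hH : BH H C) :
    ∃ V W : ℝ → M d, Continuous V ∧ Continuous W ∧ V 0 = 1 ∧ W 0 = 1 ∧
      (∀ T, 0 ≤ T → LipD V (fun t => GG L (H t) * V t) 0 T) ∧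
      (∀ T, 0 ≤ T → LipD W (fun t => W t * (-GG L (H t))) 0 T) := by
  obtain ⟨V, hV0, hVc, hV⟩ := (fam_left L hH).exists_sol 1
  obtain ⟨W, hW0, hWc, hW⟩ := (fam_right L hH).exists_sol 1
  refine ⟨V, W, hVc, hWc, hV0, hW0, fun T hT => ?_, fun T hT => ?_⟩
  · exact (hV T).lipD (fam_left L hH) hT
  · exact (hW T).lipD (fam_right L hH) hT

section VW

variable {L : Fin m → M d} {H : ℝ → M d} {C : ℝ} {V W : ℝ → M d} {T : ℝ}

lemma WV_one (hT : 0 ≤ T) (hV0 : V 0 = 1) (hW0 : W 0 = 1)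
    (hV : LipD V (fun t => GG L (H t) * V t) 0 T)
    (hW : LipD W (fun t => W t * (-GG L (H t))) 0 T) : ∀ t ∈ Icc 0 T, W t * V t = 1 := by
  intro t ht
  have h1 := (LipD.mmul hT hW hV).ftc t ht
  have h2 : ∀ r, W r * (GG L (H r) * V r) + W r * (-GG L (H r)) * V r = 0 := fun r => by
    rw [mul_neg, neg_mul, ← mul_assoc]
    abel
  simp only [h2] at h1
  rw [h1, hV0, hW0]
  simp

lemma V_bd (hH : BH H C) (hT : 0 ≤ T) (hV0 : V 0 = 1)
    (hV : LipD V (fun t => GG L (H t) * V t) 0 T) :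
    ∀ t ∈ Icc 0 T, ‖V t‖ ≤ 1 := by
  intro t ht
  refine norm_le_of_sq zero_le_one ?_
  rw [one_pow, one_smul, psd_iff]
  refine ⟨isHermitian_one.sub (posSemidef_conjTranspose_mul_self _).1, fun v => ?_⟩
  have h1 := ((LipD.mmul hT hV.mstar hV).clm (qL v)).clm (-ContinuousLinearMap.id ℝ ℝ)
  have h2 : ∀ r, (V r)ᴴ * (GG L (H r) * V r) + (GG L (H r) * V r)ᴴ * V r =
      - ((V r)ᴴ * KK L * V r) := fun r => by
    have h3 := GG_add L (hH.herm r)
    rw [conjTranspose_mul, ← mul_assoc, ← add_mul, ← mul_add, h3, mul_neg, neg_mul]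
  simp only [h2] at h1
  have h4 := h1.mono_of_nonneg (fun r _ => by
    show 0 ≤ -(qL v (-((V r)ᴴ * KK L * V r)))
    rw [map_neg, neg_neg, qL_apply]
    exact ((psd_iff _).1 ((KK_psd L).conjTranspose_mul_mul_same (V r))).2 v) 0 ⟨le_rfl, hT⟩ t ht ht.1
  have h5 : -(q v ((V 0)ᴴ * V 0)) ≤ -(q v ((V t)ᴴ * V t)) := h4
  rw [hV0, conjTranspose_one, one_mul] at h5
  rw [q_sub]
  linarith

lemma W_psd (hH : BH H C) (hT : 0 ≤ T) (hW0 : W 0 = 1)
    (hW : LipD W (fun t => W t * (-GG L (H t))) 0 T) :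
    ∀ t ∈ Icc 0 T, (Real.exp (‖KK L‖ * t) • (1 : M d) - W t * (W t)ᴴ).PosSemidef := by
  intro t ht
  rw [psd_iff]
  constructor
  · refine IsHermitian.sub ?_ (posSemidef_self_mul_conjTranspose _).1
    unfold Matrix.IsHermitian
    rw [conjTranspose_smul, conjTranspose_one]
    simp
  intro v
  have h0 := ((LipD.mmul hT hW hW.mstar).clm (qL v)).clm (-ContinuousLinearMap.id ℝ ℝ)
  have h2 : ∀ r, W r * (W r * (-GG L (H r)))ᴴ + W r * (-GG L (H r)) * (W r)ᴴ =
      W r * KK L * (W r)ᴴ := fun r => by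
    have h3 := GG_add L (hH.herm r)
    rw [conjTranspose_mul, ← mul_assoc, ← add_mul, ← mul_add, conjTranspose_neg]
    have h4 : -(GG L (H r))ᴴ + -GG L (H r) = KK L := by
      rw [← neg_add, add_comm, h3, neg_neg]
    rw [h4]
  simp only [h2] at h0
  have h1 := LipD.bilin hT (exp_lipD ‖KK L‖ T hT) h0 (ContinuousLinearMap.mul ℝ ℝ)
  have h4 := h1.mono_of_nonneg (fun r _ => by
    show 0 ≤ Real.exp (-‖KK L‖ * r) * -(q v (W r * KK L * (W r)ᴴ)) +
      -‖KK L‖ * Real.exp (-‖KK L‖ * r) * -(q v (W r * (W r)ᴴ))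
    have h5 : 0 ≤ q v (W r * (‖KK L‖ • (1 : M d) - KK L) * (W r)ᴴ) :=
      ((psd_iff _).1 ((le_norm (KK_psd L).1).mul_mul_conjTranspose_same (W r))).2 v
    rw [mul_sub, sub_mul, q_sub, Matrix.mul_smul, Matrix.smul_mul, q_smul, mul_one] at h5
    have h6 := Real.exp_pos (-‖KK L‖ * r)
    nlinarith) 0 ⟨le_rfl, hT⟩ t ht ht.1
  have h5 : Real.exp (-‖KK L‖ * 0) * -(q v (W 0 * (W 0)ᴴ)) ≤
      Real.exp (-‖KK L‖ * t) * -(q v (W t * (W t)ᴴ)) := h4
  rw [hW0, conjTranspose_one, one_mul, mul_zero, Real.exp_zero, one_mul] at h5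
  rw [q_sub, q_smul]
  have h6 : Real.exp (‖KK L‖ * t) * Real.exp (-‖KK L‖ * t) = 1 := by
    rw [← Real.exp_add]
    simp
  have h7 := Real.exp_pos (‖KK L‖ * t)
  have h8 := mul_le_mul_of_nonneg_left h5 h7.le
  have h9 : Real.exp (‖KK L‖ * t) * (Real.exp (-‖KK L‖ * t) * -(q v (W t * (W t)ᴴ))) =
      -(q v (W t * (W t)ᴴ)) := by
    rw [← mul_assoc, h6, one_mul]
  rw [h9] at h8
  linarith

lemma W_bd (hH : BH H C) (hT : 0 ≤ T) (hW0 : W 0 = 1)
    (hW : LipD W (fun t => W t * (-GG L (H t))) 0 T) :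
    ∀ t ∈ Icc 0 T, ‖W t‖ ≤ Real.exp (‖KK L‖ * T) := by
  intro t ht
  have h1 := W_psd hH hT hW0 hW t ht
  have h2 := norm_le_of_psd (posSemidef_self_mul_conjTranspose (W t)) (Real.exp_pos _).le h1
  have h3 : ‖W t * (W t)ᴴ‖ = ‖W t‖ * ‖W t‖ := by
    have := l2_opNorm_conjTranspose_mul_self (W t)ᴴ
    rwa [conjTranspose_conjTranspose, l2_opNorm_conjTranspose] at this
  rw [h3] at h2
  have h4 : Real.exp (‖KK L‖ * t) ≤ Real.exp (‖KK L‖ * T) :=
    Real.exp_le_exp.2 (mul_le_mul_of_nonneg_left ht.2 (norm_nonneg _))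
  have h5 : 1 ≤ Real.exp (‖KK L‖ * T) := Real.one_le_exp (mul_nonneg (norm_nonneg _) hT)
  by_contra hcon
  push Not at hcon
  nlinarith [norm_nonneg (W t)]

end VW

end Pool.Agent.Q234.JO
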