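import Mathlib

/-!
# Quadratic forms, irreducible families of matrices (helper234)
-/

set_option autoImplicit false

noncomputable section

namespace Pool.Agent.Q234.JO

open Matrix
open scoped ComplexOrder

/-- complex `d × d` matrices -/
abbrev M (d : ℕ) := Matrix (Fin d) (Fin d) ℂ

variable {d m : ℕ}

/-- the quadratic form of a matrix -/
def q (v : Fin d → ℂ) (X : M d) : ℝ := (star v ⬝ᵥ (X *ᵥ v)).re

lemma q_add (v : Fin d → ℂ) (X Y : M d) : q v (X + Y) = q v X + q v Y := by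
  unfold q; rw [add_mulVec, dotProduct_add, Complex.add_re]

lemma q_sub (v : Fin d → ℂ) (X Y : M d) : q v (X - Y) = q v X - q v Y := by
  unfold q; rw [sub_mulVec, dotProduct_sub, Complex.sub_re]

lemma q_smul (v : Fin d → ℂ) (c : ℝ) (X : M d) : q v (c • X) = c * q v X := by
  unfold q
  rw [smul_mulVec, dotProduct_smul]
  simp

lemma psd_iff (X : M d) : X.PosSemidef ↔ X.IsHermitian ∧ ∀ v, 0 ≤ q v X := by
  rw [posSemidef_iff_dotProduct_mulVec]
  constructor
  · rintro ⟨h1, h2⟩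
    exact ⟨h1, fun v => (Complex.nonneg_iff.1 (h2 v)).1⟩
  · rintro ⟨h1, h2⟩
    refine ⟨h1, fun v => Complex.nonneg_iff.2 ⟨h2 v, ?_⟩⟩
    exact (h1.im_star_dotProduct_mulVec_self v).symm

lemma q_zero_iff {X : M d} (hX : X.PosSemidef) (v : Fin d → ℂ) : q v X = 0 ↔ X *ᵥ v = 0 := by
  rw [← hX.dotProduct_mulVec_zero_iff]
  have h1 := hX.1.im_star_dotProduct_mulVec_self v
  constructor
  · intro h
    exact Complex.ext h h1
  · intro h
    unfold q
    rw [h]
    rfl

/-- the algebra generated by the family is the full matrix algebra -/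
def Gen (L : Fin m → M d) : Prop := Algebra.adjoin ℂ (Set.range L) = ⊤

/-- the completely positive part -/
def Phi (L : Fin m → M d) (S W X : M d) : M d :=
  ∑ j, (W * L j * S) * X * (W * L j * S)ᴴ

lemma Phi_psd (L : Fin m → M d) (S W : M d) {X : M d} (hX : X.PosSemidef) :
    (Phi L S W X).PosSemidef :=
  posSemidef_sum _ fun _ _ => hX.mul_mul_conjTranspose_same _

lemma Phi_sub (L : Fin m → M d) (S W X Y : M d) :
    Phi L S W (X - Y) = Phi L S W X - Phi L S W Y := by
  unfold Phi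
  rw [← Finset.sum_sub_distrib]
  refine Finset.sum_congr rfl fun j _ => ?_
  rw [mul_sub, sub_mul]

/-- No nontrivial subspace is invariant under the adjoints of a generating family. -/
theorem no_inv {L : Fin m → M d} (hL : Gen L) (N : Submodule ℂ (Fin d → ℂ)) (hN : N ≠ ⊥)
    (hinv : ∀ j, ∀ u ∈ N, (L j)ᴴ *ᵥ u ∈ N) : N = ⊤ := by
  have key : ∀ A : M d, ∀ u ∈ N, Aᴴ *ᵥ u ∈ N := by
    intro A
    have hA : A ∈ Algebra.adjoin ℂ (Set.range L) := by rw [hL]; trivial
    induction hA using Algebra.adjoin_induction with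
    | mem x hx =>
      obtain ⟨j, rfl⟩ := hx
      exact hinv j
    | algebraMap r =>
      intro u hu
      have : (algebraMap ℂ (M d) r)ᴴ *ᵥ u = (star r) • u := by
        rw [Algebra.algebraMap_eq_smul_one, conjTranspose_smul, conjTranspose_one, smul_mulVec,
          one_mulVec]
      rw [this]
      exact N.smul_mem _ hu
    | add x y _ _ hx hy =>
      intro u hu
      rw [conjTranspose_add, add_mulVec]
      exact N.add_mem (hx u hu) (hy u hu)
    | mul x y _ _ hx hy =>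
      intro u hu
      rw [conjTranspose_mul, ← mulVec_mulVec]
      exact hy _ (hx u hu)
  obtain ⟨u, hu, hu0⟩ := (Submodule.ne_bot_iff N).1 hN
  rw [eq_top_iff]
  intro v _
  obtain ⟨i, hi⟩ : ∃ i, u i ≠ 0 := by
    by_contra h
    push Not at h
    exact hu0 (funext h)
  have h1 := key (vecMulVec v (Pi.single i (u i)⁻¹))ᴴ u hu
  rw [conjTranspose_conjTranspose, vecMulVec_mulVec] at h1
  have h2 : (Pi.single i (u i)⁻¹ : Fin d → ℂ) ⬝ᵥ u = 1 := by
    rw [single_dotProduct, inv_mul_cancel₀ hi]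
  rw [h2] at h1
  simpa using h1

/-- matrices with prescribed range -/
lemma exists_range (N : Submodule ℂ (Fin d → ℂ)) :
    ∃ Q : M d, (∀ v, Q *ᵥ v ∈ N) ∧ ∀ u ∈ N, ∃ v, Q *ᵥ v = u := by
  obtain ⟨N', hN'⟩ := N.exists_isCompl
  refine ⟨LinearMap.toMatrix' (N.projection N' hN'), fun v => ?_, fun u hu => ⟨u, ?_⟩⟩
  · rw [LinearMap.toMatrix'_mulVec]
    exact Submodule.projection_apply_mem hN' v
  · rw [LinearMap.toMatrix'_mulVec]
    exact Submodule.projection_apply_of_mem_left hN' hu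

/-- the test functional -/
def g (L : Fin m → M d) (Q S W X : M d) : ℝ := (trace (Qᴴ * Phi L S W X * Q)).re

lemma trace_re_nonneg {X : M d} (hX : X.PosSemidef) : 0 ≤ (trace X).re :=
  (Complex.nonneg_iff.1 hX.trace_nonneg).1

lemma trace_zero_of_re {X : M d} (hX : X.PosSemidef) (h : (trace X).re = 0) : X = 0 := by
  rw [← hX.trace_eq_zero_iff]
  have := (Complex.nonneg_iff.1 hX.trace_nonneg).2
  exact Complex.ext h this.symm

lemma g_nonneg (L : Fin m → M d) (Q S W : M d) {X : M d} (hX : X.PosSemidef) :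
    0 ≤ g L Q S W X :=
  trace_re_nonneg ((Phi_psd L S W hX).conjTranspose_mul_mul_same Q)

lemma g_sub (L : Fin m → M d) (Q S W X Y : M d) : g L Q S W (X - Y) = g L Q S W X - g L Q S W Y := by
  unfold g
  rw [Phi_sub, mul_sub, sub_mul, trace_sub, Complex.sub_re]

/-- positivity of the test functional -/
theorem g_pos {L : Fin m → M d} (hL : Gen L) {X : M d} (hX : X.PosSemidef) (hX0 : X ≠ 0)
    {Q : M d} (hQ : ∀ u, X *ᵥ u = 0 → ∃ v, Q *ᵥ v = u) (hXQ : X * Q = 0) (hQ0 : Q ≠ 0)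
    {S W : M d} (hWS : W * S = 1) : 0 < g L Q S W X := by
  refine lt_of_le_of_ne (g_nonneg L Q S W hX) fun h0 => ?_
  have hSW : S * W = 1 := mul_eq_one_comm.1 hWS
  -- all the terms vanish
  have hterm : ∀ j, X * ((W * L j * S)ᴴ * Q) = 0 := by
    intro j
    have hpsd : ∀ i, (Qᴴ * ((W * L i * S) * X * (W * L i * S)ᴴ) * Q).PosSemidef := fun i =>
      (hX.mul_mul_conjTranspose_same _).conjTranspose_mul_mul_same Q
    have hsum : g L Q S W X =
        ∑ i, (trace (Qᴴ * ((W * L i * S) * X * (W * L i * S)ᴴ) * Q)).re := by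
      unfold g Phi
      rw [Finset.mul_sum, Finset.sum_mul, trace_sum, Complex.re_sum]
    have h1 : (trace (Qᴴ * ((W * L j * S) * X * (W * L j * S)ᴴ) * Q)).re = 0 := by
      have h2 := (Finset.sum_eq_zero_iff_of_nonneg fun i _ => trace_re_nonneg (hpsd i)).1
        (hsum ▸ h0.symm)
      exact h2 j (Finset.mem_univ j)
    have h2 := trace_zero_of_re (hpsd j) h1
    set B : M d := (W * L j * S)ᴴ * Q with hB
    have h3 : Bᴴ * X * B = 0 := by
      rw [← h2, hB, conjTranspose_mul, conjTranspose_conjTranspose]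
      simp only [Matrix.mul_assoc]
    ext i k
    have h4 : X *ᵥ (B *ᵥ Pi.single k 1) = 0 := by
      rw [← q_zero_iff hX]
      unfold q
      have h5 : star (B *ᵥ Pi.single k 1) ⬝ᵥ (X *ᵥ (B *ᵥ Pi.single k 1)) =
          star (Pi.single k 1) ⬝ᵥ ((Bᴴ * X * B) *ᵥ Pi.single k 1) := by
        simp only [star_mulVec, dotProduct_mulVec, vecMul_vecMul, ← mulVec_mulVec]
      rw [h5, h3]
      simp
    have h5 := congrFun h4 i
    rw [mulVec_mulVec] at h5
    simpa using h5
  -- the invariant subspace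
  let N : Submodule ℂ (Fin d → ℂ) := LinearMap.ker (X.mulVecLin)
  have hN : ∀ u, u ∈ N ↔ X *ᵥ u = 0 := fun u => by
    simp only [N, LinearMap.mem_ker, mulVecLin_apply]
  have hNinv : ∀ j, ∀ u ∈ N, (W * L j * S)ᴴ *ᵥ u ∈ N := by
    intro j u hu
    obtain ⟨v, rfl⟩ := hQ u ((hN u).1 hu)
    rw [hN, mulVec_mulVec, mulVec_mulVec, Matrix.mul_assoc, hterm j, zero_mulVec]
  let N' : Submodule ℂ (Fin d → ℂ) := N.map (Wᴴ.mulVecLin)
  have hWS' : Sᴴ * Wᴴ = 1 := by rw [← conjTranspose_mul, hWS, conjTranspose_one]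
  have hSW' : Wᴴ * Sᴴ = 1 := by rw [← conjTranspose_mul, hSW, conjTranspose_one]
  have hN'inv : ∀ j, ∀ u ∈ N', (L j)ᴴ *ᵥ u ∈ N' := by
    rintro j _ ⟨u, hu, rfl⟩
    refine ⟨(W * L j * S)ᴴ *ᵥ u, hNinv j u hu, ?_⟩
    rw [mulVecLin_apply, mulVecLin_apply, mulVec_mulVec, mulVec_mulVec]
    congr 1
    rw [conjTranspose_mul, conjTranspose_mul, ← Matrix.mul_assoc, hSW', Matrix.one_mul]
  have hNbot : N' ≠ ⊥ := by
    obtain ⟨k, hk⟩ : ∃ k, Q *ᵥ Pi.single k 1 ≠ 0 := by
      by_contra h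
      push Not at h
      apply hQ0
      ext i k
      have := congrFun (h k) i
      simpa using this
    intro h
    apply hk
    have h1 : Q *ᵥ Pi.single k 1 ∈ N := by
      rw [hN, mulVec_mulVec, hXQ, zero_mulVec]
    have h2 : Wᴴ *ᵥ (Q *ᵥ Pi.single k 1) ∈ N' := ⟨_, h1, rfl⟩
    rw [h, Submodule.mem_bot] at h2
    have h3 : Sᴴ *ᵥ (Wᴴ *ᵥ (Q *ᵥ Pi.single k 1)) = 0 := by rw [h2, mulVec_zero]
    rwa [mulVec_mulVec, hWS', one_mulVec] at h3
  have htop := no_inv hL N' hNbot hN'inv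
  apply hX0
  have hall : ∀ v, X *ᵥ v = 0 := by
    intro v
    have h1 : Wᴴ *ᵥ v ∈ N' := by rw [htop]; trivial
    obtain ⟨u, hu, hu'⟩ := h1
    rw [mulVecLin_apply] at hu'
    have h2 : u = v := by
      have := congrArg (fun z => Sᴴ *ᵥ z) hu'
      simpa only [mulVec_mulVec, hWS', one_mulVec] using this
    rw [← h2]
    exact (hN u).1 hu
  ext i k
  have := congrFun (hall (Pi.single k 1)) i
  simpa using this

end Pool.Agent.Q234.JO
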