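import Pool.Agent.Q234.JO.Unif

/-!
# Uniform lower bound, compactness argument (helper234)
-/

set_option autoImplicit false

noncomputable section

namespace Pool.Agent.Q234.JO

open Matrix MeasureTheory Set Filter Topology
open scoped ComplexOrder Matrix.Norms.L2Operator

variable {d m : ℕ} {L : Fin m → M d} {T : ℝ}

lemma q_lim {v : ℕ → Fin d → ℂ} {X : ℕ → M d} {w : Fin d → ℂ} {Y : M d}
    (hv : Tendsto v atTop (𝓝 w)) (hX : Tendsto X atTop (𝓝 Y)) :
    Tendsto (fun n => q (v n) (X n)) atTop (𝓝 (q w Y)) := by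
  unfold q
  have h1 : ∀ (v : Fin d → ℂ) (X : M d), (star v ⬝ᵥ (X *ᵥ v)).re =
      (∑ i, star (v i) * ∑ j, X i j * v j).re := by
    intro v X
    rfl
  simp only [h1]
  refine (Complex.continuous_re.tendsto _).comp ?_
  refine tendsto_finsetSum _ fun i _ => ?_
  refine Tendsto.mul ((continuous_star.tendsto _).comp ((tendsto_pi_nhds.1 hv) i)) ?_
  refine tendsto_finsetSum _ fun j _ => ?_
  refine Tendsto.mul ?_ ((tendsto_pi_nhds.1 hv) j)
  exact (tendsto_pi_nhds.1 ((tendsto_pi_nhds.1 hX) i)) j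

lemma q_one_le (v : Fin d → ℂ) : q v 1 ≤ d * ‖v‖ ^ 2 := by
  unfold q
  rw [one_mulVec, dotProduct, Complex.re_sum]
  calc ∑ i, (star v i * v i).re ≤ ∑ _i : Fin d, ‖v‖ ^ 2 := by
        refine Finset.sum_le_sum fun i _ => ?_
        have h1 : (star v i * v i).re = ‖v i‖ ^ 2 := by
          rw [Pi.star_apply, RCLike.star_def, ← Complex.normSq_eq_conj_mul_self, Complex.ofReal_re,
            Complex.normSq_eq_norm_sq]
        rw [h1]
        exact pow_le_pow_left₀ (norm_nonneg _) (norm_le_pi_norm v i) 2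
    _ = d * ‖v‖ ^ 2 := by simp

lemma q_smul_left (c : ℝ) (v : Fin d → ℂ) (X : M d) : q (c • v) X = c ^ 2 * q v X := by
  unfold q
  rw [mulVec_smul, dotProduct_smul, star_smul, smul_dotProduct]
  simp [sq, mul_assoc]

lemma q_zero_left (X : M d) : q 0 X = 0 := by unfold q; simp

/-- a bad sequence element -/
lemma exists_bad {X : M d} (hX : X.IsHermitian) {c : ℝ} (hc : 0 ≤ c)
    (h : ¬ (X - c • (1 : M d)).PosSemidef) : ∃ v : Fin d → ℂ, ‖v‖ = 1 ∧ q v X ≤ c * d := by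
  rw [psd_iff] at h
  push Not at h
  have hH : (X - c • (1 : M d)).IsHermitian := by
    refine hX.sub ?_
    unfold Matrix.IsHermitian
    rw [conjTranspose_smul, conjTranspose_one]
    simp
  obtain ⟨v, hv⟩ := h hH
  have hv0 : v ≠ 0 := by
    rintro rfl
    rw [q_zero_left] at hv
    exact lt_irrefl _ hv
  have hn : 0 < ‖v‖ := norm_pos_iff.2 hv0
  refine ⟨‖v‖⁻¹ • v, ?_, ?_⟩
  · rw [norm_smul, norm_inv, norm_norm, inv_mul_cancel₀ hn.ne']
  · rw [q_smul_left]
    rw [q_sub, q_smul] at hv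
    have h1 := q_one_le v
    have h2 : q v X ≤ c * (d * ‖v‖ ^ 2) := by
      have := mul_le_mul_of_nonneg_left h1 hc
      linarith
    rw [inv_pow, inv_mul_le_iff₀ (by positivity)]
    linarith

/-- extraction of a convergent subsequence -/
lemma extract (N : ℕ) (B : ℝ) (a : ℕ → ℕ → M d) (ha : ∀ n k, k ≤ N → ‖a n k‖ ≤ B)
    (v : ℕ → Fin d → ℂ) (hv : ∀ n, ‖v n‖ = 1) :
    ∃ φ : ℕ → ℕ, StrictMono φ ∧ ∃ (z : ℕ → M d) (w : Fin d → ℂ), ‖w‖ = 1 ∧
      (∀ k ≤ N, Tendsto (fun n => a (φ n) k) atTop (𝓝 (z k))) ∧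
      Tendsto (fun n => v (φ n)) atTop (𝓝 w) := by
  let u : ℕ → (Fin (N + 1) → M d) × (Fin d → ℂ) := fun n => (fun k => a n k, v n)
  have hPr1 : ProperSpace (Fin (N + 1) → M d) := inferInstance
  have hPr2 : ProperSpace ((Fin (N + 1) → M d) × (Fin d → ℂ)) := inferInstance
  obtain ⟨z, -, φ, hφ, hlim⟩ := tendsto_subseq_of_bounded
    (s := Metric.closedBall (0 : (Fin (N + 1) → M d) × (Fin d → ℂ)) (max B 1))
    Metric.isBounded_closedBall (x := u) (fun n => by
      rw [mem_closedBall_zero_iff, Prod.norm_def]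
      refine max_le ?_ ?_
      · refine (pi_norm_le_iff_of_nonneg (by positivity)).2 fun k => ?_
        exact (ha n k (by omega)).trans (le_max_left _ _)
      · exact (hv n).le.trans (le_max_right _ _))
  refine ⟨φ, hφ, fun k => if h : k < N + 1 then z.1 ⟨k, h⟩ else 0, z.2, ?_, ?_, ?_⟩
  · have hlimv : Tendsto (fun n => v (φ n)) atTop (𝓝 z.2) := (continuous_snd.tendsto z).comp hlim
    have h1 := hlimv.norm
    simp only [hv] at h1
    exact (tendsto_nhds_unique h1 tendsto_const_nhds)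
  · intro k hk
    have hk' : k < N + 1 := by omega
    simp only [hk', dif_pos]
    have h1 := (continuous_fst.tendsto z).comp hlim
    exact ((continuous_apply (⟨k, hk'⟩ : Fin (N + 1))).tendsto z.1).comp h1
  · exact (continuous_snd.tendsto z).comp hlim

lemma psd_lim {X : ℕ → M d} {Y : M d} (hX : Tendsto X atTop (𝓝 Y))
    (h : ∀ n, (X n).PosSemidef) : Y.PosSemidef := by
  rw [psd_iff]
  constructor
  · have h1 : Tendsto (fun n => (X n)ᴴ) atTop (𝓝 Yᴴ) :=
      ((continuous_id.matrix_conjTranspose).tendsto _).comp hX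
    have h2 : (fun n => (X n)ᴴ) = X := funext fun n => (h n).1
    rw [h2] at h1
    exact tendsto_nhds_unique h1 hX
  · intro w
    exact ge_of_tendsto' (q_lim tendsto_const_nhds hX) fun n => ((psd_iff _).1 (h n)).2 w

/-- pigeonhole on kernels -/
lemma pigeon (z : ℕ → M d) (hpsd : ∀ k ≤ d + 1, (z k).PosSemidef)
    (hmono : ∀ k ≤ d, (z (k + 1) - z k).PosSemidef) (w : Fin d → ℂ) (hlast : q w (z (d + 1)) ≤ 0) :
    ∃ k ≤ d, z k *ᵥ w = 0 ∧ ∀ u, z k *ᵥ u = 0 → z (k + 1) *ᵥ u = 0 := by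
  let N : ℕ → Submodule ℂ (Fin d → ℂ) := fun k =>
    if k ≤ d + 1 then LinearMap.ker (z k).mulVecLin else ⊥
  have hN : ∀ (k : ℕ) (_ : k ≤ d + 1) (u : Fin d → ℂ), u ∈ N k ↔ z k *ᵥ u = 0 := by
    intro k hk u
    simp only [N, hk, if_pos, LinearMap.mem_ker, mulVecLin_apply]
  have hNanti : ∀ k, N (k + 1) ≤ N k := by
    intro k
    by_cases hk : k + 1 ≤ d + 1
    · intro u hu
      rw [hN _ hk, ← q_zero_iff (hpsd _ hk)] at hu
      rw [hN _ (by omega), ← q_zero_iff (hpsd _ (by omega))]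
      have h1 := ((psd_iff _).1 (hmono k (by omega))).2 u
      rw [q_sub] at h1
      exact le_antisymm (by linarith) (((psd_iff _).1 (hpsd k (by omega))).2 u)
    · have : N (k + 1) = ⊥ := by simp only [N, hk, if_neg, not_false_iff]
      rw [this]
      exact bot_le
  have hNlast : w ∈ N (d + 1) := by
    rw [hN _ le_rfl, ← q_zero_iff (hpsd _ le_rfl)]
    exact le_antisymm hlast (((psd_iff _).1 (hpsd _ le_rfl)).2 _)
  have hmem : ∀ j, j ≤ d + 1 → w ∈ N j := fun j hj =>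
    (antitone_nat_of_succ_le hNanti hj) hNlast
  obtain ⟨k, hk, hkN⟩ : ∃ k, k < d + 1 ∧ N (k + 1) = N k := by
    by_contra hno
    push Not at hno
    have h1 : ∀ k, k ≤ d + 1 → Module.finrank ℂ (N k) + k ≤ d := by
      intro k
      induction k with
      | zero =>
        intro _
        have := Submodule.finrank_le (N 0)
        rw [Module.finrank_fin_fun] at this
        simpa using this
      | succ k ih =>
        intro hk
        have h2 := ih (by omega)
        have h3 : N (k + 1) < N k := lt_of_le_of_ne (hNanti k) (hno k (by omega))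
        have h4 := Submodule.finrank_lt_finrank_of_lt h3
        omega
    have := h1 (d + 1) le_rfl
    omega
  refine ⟨k, by omega, (hN k (by omega) w).1 (hmem k (by omega)), fun u hu => ?_⟩
  rw [← hN (k + 1) (by omega), hkN, hN k (by omega)]
  exact hu

/-- one step: lower bound for the increase of the test functional -/
lemma step_bound {B : ℝ} (σ : Traj L T B) {a b : ℝ} (ha : a ∈ Icc 0 T) (hb : b ∈ Icc 0 T)
    (hab : a ≤ b) {Q X : M d} {δ C : ℝ}
    (hmin : ∀ S W : M d, ‖S‖ ≤ B → ‖W‖ ≤ B → W * S = 1 → δ ≤ g L Q S W X)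
    (hgb : ∀ S W X : M d, ‖S‖ ≤ B → ‖W‖ ≤ B → |g L Q S W X| ≤ C * ‖X‖) :
    (b - a) * (δ - C * ‖σ.Z a - X‖) ≤ tL Q (σ.Z b - σ.Z a) := by
  rw [σ.eq _ ha _ hb, ← ContinuousLinearMap.intervalIntegral_comp_comm _ (σ.phi_int ha hb)]
  have h1 : (b - a) * (δ - C * ‖σ.Z a - X‖) = ∫ _r in a..b, (δ - C * ‖σ.Z a - X‖) := by
    rw [intervalIntegral.integral_const, smul_eq_mul]
  rw [h1]
  refine intervalIntegral.integral_mono_on hab intervalIntegrable_const ?_ ?_
  · have h2 : ContinuousOn (fun r => Phi L (σ.S r) (σ.W r) (σ.Z r)) (uIcc a b) :=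
      (Phi_cont L σ.hS σ.hW σ.hZ).mono (by
        intro x hx
        rw [uIcc_of_le hab] at hx
        exact ⟨ha.1.trans hx.1, hx.2.trans hb.2⟩)
    exact ((tL Q).continuous.comp_continuousOn h2).intervalIntegrable
  · intro r hr
    have hrm : r ∈ Icc 0 T := ⟨ha.1.trans hr.1, hr.2.trans hb.2⟩
    have h2 : g L Q (σ.S r) (σ.W r) (σ.Z a) ≤ tL Q (Phi L (σ.S r) (σ.W r) (σ.Z r)) := by
      have h3 := g_nonneg L Q (σ.S r) (σ.W r) (σ.mono ha hrm hr.1)
      rw [g_sub] at h3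
      have h4 : tL Q (Phi L (σ.S r) (σ.W r) (σ.Z r)) = g L Q (σ.S r) (σ.W r) (σ.Z r) := rfl
      rw [h4]
      linarith
    have h3 := hmin (σ.S r) (σ.W r) (σ.bS r hrm) (σ.bW r hrm) (σ.WS r hrm)
    have h4 := hgb (σ.S r) (σ.W r) (σ.Z a - X) (σ.bS r hrm) (σ.bW r hrm)
    rw [g_sub, abs_le] at h4
    linarith [h4.1]

lemma mul_zero_of_range {X Q : M d} (h : ∀ v, X *ᵥ (Q *ᵥ v) = 0) : X * Q = 0 := by
  ext i j
  have h1 := h (Pi.single j 1)
  rw [mulVec_mulVec] at h1
  have := congrFun h1 i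
  simpa using this

/-- the uniform lower bound -/
theorem uniform (hL : Gen L) (hT : 0 < T) (B : ℝ) :
    ∃ c : ℝ, 0 < c ∧ ∀ τ : Traj L T B, (τ.Z T - c • (1 : M d)).PosSemidef := by
  by_contra hcon
  push Not at hcon
  have hseq : ∀ n : ℕ, ∃ τ : Traj L T B, ∃ v : Fin d → ℂ, ‖v‖ = 1 ∧
      q v (τ.Z T) ≤ 1 / ((n : ℝ) + 1) * d := by
    intro n
    obtain ⟨τ, hτ⟩ := hcon (1 / ((n : ℝ) + 1)) (by positivity)
    have hTm : T ∈ Icc 0 T := ⟨hT.le, le_rfl⟩
    obtain ⟨v, hv⟩ := exists_bad (τ.psd T hTm).1 (by positivity) hτ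
    exact ⟨τ, v, hv⟩
  choose τ v hv hq using hseq
  obtain ⟨t, ht⟩ : ∃ t : ℕ → ℝ, ∀ k : ℕ, t k = k * (T / (d + 1)) := ⟨_, fun _ => rfl⟩
  have hd1 : (0 : ℝ) < d + 1 := by positivity
  have hTd : 0 < T / (d + 1) := by positivity
  have htm : ∀ k : ℕ, k ≤ d + 1 → t k ∈ Icc 0 T := by
    intro k hk
    rw [ht]
    refine ⟨by positivity, ?_⟩
    have : (k : ℝ) ≤ d + 1 := by exact_mod_cast hk
    calc (k : ℝ) * (T / (d + 1)) ≤ (d + 1) * (T / (d + 1)) :=
          mul_le_mul_of_nonneg_right this hTd.le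
      _ = T := by field_simp
  have ht1 : ∀ k, t (k + 1) - t k = T / (d + 1) := by
    intro k
    rw [ht, ht]
    push_cast
    ring
  have htmono : ∀ k, t k ≤ t (k + 1) := by
    intro k
    have := ht1 k
    linarith
  have htT : t (d + 1) = T := by
    rw [ht]
    push_cast
    field_simp
  obtain ⟨φ, hφ, z, w, hw, hz, hvw⟩ := extract (d + 1) B (fun n k => (τ n).Z (t k))
    (fun n k hk => (τ n).bZ _ (htm k hk)) v hv
  have hpsd : ∀ k ≤ d + 1, (z k).PosSemidef := fun k hk =>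
    psd_lim (hz k hk) fun n => (τ (φ n)).psd _ (htm k hk)
  have hmono : ∀ k ≤ d, (z (k + 1) - z k).PosSemidef := fun k hk =>
    psd_lim ((hz (k + 1) (by omega)).sub (hz k (by omega))) fun n =>
      (τ (φ n)).mono (htm k (by omega)) (htm (k + 1) (by omega)) (htmono k)
  have hlast : q w (z (d + 1)) ≤ 0 := by
    have h1 := q_lim hvw (hz (d + 1) le_rfl)
    have h2 : Tendsto (fun n => 1 / (((φ n : ℕ) : ℝ) + 1) * d) atTop (𝓝 0) := by
      have h3 := (tendsto_one_div_add_atTop_nhds_zero_nat (𝕜 := ℝ)).comp hφ.tendsto_atTop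
      have h4 := h3.mul_const (d : ℝ)
      rw [zero_mul] at h4
      exact h4
    refine le_of_tendsto_of_tendsto' h1 h2 fun n => ?_
    rw [htT]
    exact hq (φ n)
  have hw0 : w ≠ 0 := by
    rintro rfl
    rw [norm_zero] at hw
    exact zero_ne_one hw
  obtain ⟨k, hk, hkw, hkk⟩ := pigeon z hpsd hmono w hlast
  obtain ⟨Q, hQ1, hQ2⟩ := exists_range (LinearMap.ker (z k).mulVecLin)
  simp only [LinearMap.mem_ker, mulVecLin_apply] at hQ1 hQ2
  have hXQ : z k * Q = 0 := mul_zero_of_range hQ1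
  have hYQ : z (k + 1) * Q = 0 := mul_zero_of_range fun v => hkk _ (hQ1 v)
  have hQ0 : Q ≠ 0 := by
    rintro rfl
    obtain ⟨u, hu⟩ := hQ2 w hkw
    rw [zero_mulVec] at hu
    exact hw0 hu.symm
  have hX0 : z k ≠ 0 := by
    intro h0
    have h1 : Tendsto (fun n => (trace ((τ (φ n)).Z (t k))).re) atTop (𝓝 (trace (z k)).re) := by
      have hc : Continuous fun X : M d => (trace X).re :=
        Complex.continuous_re.comp (continuous_id.matrix_trace)
      exact (hc.tendsto _).comp (hz k (by omega))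
    have h4 : 1 ≤ (trace (z k)).re := by
      refine ge_of_tendsto' h1 fun n => ?_
      have h2 := (τ (φ n)).mono (a := 0) ⟨le_rfl, hT.le⟩ (htm k (by omega)) (htm k (by omega)).1
      have h3 := trace_re_nonneg h2
      rw [trace_sub, Complex.sub_re, (τ (φ n)).tr] at h3
      linarith
    rw [h0] at h4
    simp at h4
    linarith
  obtain ⟨δ, hδ, hmin⟩ := g_min hL (hpsd k (by omega)) hX0 hQ2 hXQ hQ0 B
  obtain ⟨C, hC, hgb⟩ := g_bound L Q B
  have hint : ∀ n, (t (k + 1) - t k) * (δ - C * ‖(τ (φ n)).Z (t k) - z k‖) ≤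
      tL Q ((τ (φ n)).Z (t (k + 1)) - (τ (φ n)).Z (t k)) := fun n =>
    step_bound (τ (φ n)) (htm k (by omega)) (htm (k + 1) (by omega)) (htmono k) hmin hgb
  have hL1 : Tendsto (fun n => (t (k + 1) - t k) * (δ - C * ‖(τ (φ n)).Z (t k) - z k‖)) atTop
      (𝓝 ((t (k + 1) - t k) * (δ - C * 0))) := by
    have h1 : Tendsto (fun n => ‖(τ (φ n)).Z (t k) - z k‖) atTop (𝓝 0) :=
      tendsto_iff_norm_sub_tendsto_zero.1 (hz k (by omega))
    exact (tendsto_const_nhds.sub (h1.const_mul C)).const_mul _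
  have hR1 : Tendsto (fun n => tL Q ((τ (φ n)).Z (t (k + 1)) - (τ (φ n)).Z (t k))) atTop
      (𝓝 (tL Q (z (k + 1) - z k))) :=
    ((tL Q).continuous.tendsto _).comp ((hz (k + 1) (by omega)).sub (hz k (by omega)))
  have hle := le_of_tendsto_of_tendsto' hL1 hR1 hint
  have hzero : tL Q (z (k + 1) - z k) = 0 := by
    rw [tL_apply, mul_sub, sub_mul, Matrix.mul_assoc, Matrix.mul_assoc, hYQ, hXQ]
    simp
  rw [hzero, ht1] at hle
  have : 0 < (T / (d + 1)) * (δ - C * 0) := by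
    rw [mul_zero, sub_zero]
    positivity
  linarith

end Pool.Agent.Q234.JO
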