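import Pool.Agent.Q234.JO.Fam
import Pool.Agent.Q234.JO.Unif2

/-!
# Matrix equations (helper234)
-/

set_option autoImplicit false

noncomputable section

namespace Pool.Agent.Q234.JO

open Matrix MeasureTheory Set Filter Topology
open scoped ComplexOrder Matrix.Norms.L2Operator

variable {d m : ℕ}

/-- the driven Lindbladian -/
def lin (L : Fin m → M d) (H X : M d) : M d :=
  (-Complex.I) • (H * X - X * H) +
    ∑ j, (L j * X * (L j)ᴴ - (1 / 2 : ℂ) • ((L j)ᴴ * L j * X + X * ((L j)ᴴ * L j)))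

/-- `K = Σ LᴴL` -/
def KK (L : Fin m → M d) : M d := ∑ j, (L j)ᴴ * L j

lemma KK_psd (L : Fin m → M d) : (KK L).PosSemidef :=
  posSemidef_sum _ fun _ _ => posSemidef_conjTranspose_mul_self _

/-- non hermitian generator -/
def GG (L : Fin m → M d) (H : M d) : M d := (-Complex.I) • H - (1 / 2 : ℂ) • KK L

lemma GG_star (L : Fin m → M d) {H : M d} (hH : H.IsHermitian) :
    (GG L H)ᴴ = Complex.I • H - (1 / 2 : ℂ) • KK L := by
  unfold GG
  rw [conjTranspose_sub, conjTranspose_smul, conjTranspose_smul, hH.eq, (KK_psd L).1.eq]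
  congr 2
  · simp
  · simp

lemma GG_add (L : Fin m → M d) {H : M d} (hH : H.IsHermitian) :
    GG L H + (GG L H)ᴴ = - KK L := by
  rw [GG_star L hH]
  unfold GG
  have h1 : KK L = (1 / 2 : ℂ) • KK L + (1 / 2 : ℂ) • KK L := by
    rw [← add_smul]
    norm_num
  conv_rhs => rw [h1]
  rw [neg_smul]
  abel

lemma lin_eq (L : Fin m → M d) {H : M d} (hH : H.IsHermitian) (X : M d) :
    lin L H X = GG L H * X + X * (GG L H)ᴴ + ∑ j, L j * X * (L j)ᴴ := by
  rw [GG_star L hH]
  unfold lin GG KK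
  rw [Finset.sum_sub_distrib, ← Finset.smul_sum, Finset.sum_add_distrib, ← Finset.sum_mul,
    ← Finset.mul_sum, sub_mul, mul_sub, smul_mul, smul_mul, Matrix.mul_smul, Matrix.mul_smul,
    smul_sub, smul_add, neg_smul, neg_smul]
  abel

/-- left multiplication -/
def lmul (A : M d) : M d →L[ℝ] M d := ContinuousLinearMap.mul ℝ (M d) A

/-- right multiplication -/
def rmul (A : M d) : M d →L[ℝ] M d := (ContinuousLinearMap.mul ℝ (M d)).flip A

@[simp] lemma lmul_apply (A X : M d) : lmul A X = A * X := rfl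

@[simp] lemma rmul_apply (A X : M d) : rmul A X = X * A := rfl

lemma lmul_norm (A : M d) : ‖lmul A‖ ≤ ‖A‖ :=
  ContinuousLinearMap.opNorm_le_bound _ (norm_nonneg _) fun _ => norm_mul_le _ _

lemma rmul_norm (A : M d) : ‖rmul A‖ ≤ ‖A‖ :=
  ContinuousLinearMap.opNorm_le_bound _ (norm_nonneg _) fun X => by
    rw [rmul_apply, mul_comm ‖A‖]
    exact norm_mul_le _ _

/-- Kraus map -/
def kraus (A : Fin m → M d) : M d →L[ℝ] M d := ∑ j, (rmul (A j)ᴴ).comp (lmul (A j))

@[simp] lemma kraus_apply (A : Fin m → M d) (X : M d) : kraus A X = ∑ j, A j * X * (A j)ᴴ := by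
  unfold kraus
  rw [_root_.sum_apply]
  rfl

lemma kraus_norm (A : Fin m → M d) : ‖kraus A‖ ≤ ∑ j, ‖A j‖ * ‖A j‖ := by
  unfold kraus
  refine (norm_sum_le _ _).trans (Finset.sum_le_sum fun j _ => ?_)
  refine (ContinuousLinearMap.opNorm_comp_le _ _).trans ?_
  refine mul_le_mul ((rmul_norm _).trans ?_) (lmul_norm _) (norm_nonneg _) (norm_nonneg _)
  rw [l2_opNorm_conjTranspose]

/-- the Lindbladian as a real continuous linear map (for hermitian `H`) -/
def linL (L : Fin m → M d) (H : M d) : M d →L[ℝ] M d :=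
  lmul (GG L H) + rmul (GG L H)ᴴ + kraus L

lemma linL_apply (L : Fin m → M d) {H : M d} (hH : H.IsHermitian) (X : M d) :
    linL L H X = lin L H X := by
  rw [lin_eq L hH]
  unfold linL
  simp

/-- a bounded measurable hermitian drive -/
structure BH (H : ℝ → M d) (C : ℝ) : Prop where
  meas : AEStronglyMeasurable H volume
  bd : ∀ t, ‖H t‖ ≤ C
  herm : ∀ t, (H t).IsHermitian

lemma GG_bd (L : Fin m → M d) {H : ℝ → M d} {C : ℝ} (hH : BH H C) (t : ℝ) :
    ‖GG L (H t)‖ ≤ C + ‖KK L‖ := by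
  unfold GG
  refine (norm_sub_le _ _).trans (add_le_add ?_ ?_)
  · rw [norm_smul, norm_neg, Complex.norm_I, one_mul]
    exact hH.bd t
  · rw [norm_smul]
    have : ‖(1 / 2 : ℂ)‖ ≤ 1 := by norm_num
    calc ‖(1 / 2 : ℂ)‖ * ‖KK L‖ ≤ 1 * ‖KK L‖ := mul_le_mul_of_nonneg_right this (norm_nonneg _)
      _ = ‖KK L‖ := one_mul _

lemma GG_meas (L : Fin m → M d) {H : ℝ → M d} {C : ℝ} (hH : BH H C) :
    AEStronglyMeasurable (fun t => GG L (H t)) volume := by
  unfold GG
  exact (hH.meas.const_smul (-Complex.I)).sub aestronglyMeasurable_const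

lemma fam_left (L : Fin m → M d) {H : ℝ → M d} {C : ℝ} (hH : BH H C) :
    Fam (fun t => lmul (GG L (H t))) (C + ‖KK L‖) where
  meas := fun Y hY => by
    simp only [lmul_apply]
    exact (GG_meas L hH).mul hY.aestronglyMeasurable
  bd := fun t => (lmul_norm _).trans (GG_bd L hH t)

lemma fam_right (L : Fin m → M d) {H : ℝ → M d} {C : ℝ} (hH : BH H C) :
    Fam (fun t => rmul (-GG L (H t))) (C + ‖KK L‖) where
  meas := fun Y hY => by
    simp only [rmul_apply]
    exact hY.aestronglyMeasurable.mul (GG_meas L hH).neg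
  bd := fun t => (rmul_norm _).trans (by rw [norm_neg]; exact GG_bd L hH t)

lemma fam_lin (L : Fin m → M d) {H : ℝ → M d} {C : ℝ} (hH : BH H C) :
    Fam (fun t => linL L (H t)) (C + ‖KK L‖ + (C + ‖KK L‖) + ∑ j, ‖L j‖ * ‖L j‖) where
  meas := fun Y hY => by
    unfold linL
    simp only [_root_.add_apply, lmul_apply, rmul_apply]
    refine AEStronglyMeasurable.add (AEStronglyMeasurable.add ?_ ?_) ?_
    · exact (GG_meas L hH).mul hY.aestronglyMeasurable
    · exact hY.aestronglyMeasurable.mul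
        ((continuous_id.matrix_conjTranspose).comp_aestronglyMeasurable (GG_meas L hH))
    · exact ((kraus L).continuous.comp hY).aestronglyMeasurable
  bd := fun t => by
    unfold linL
    refine (norm_add_le _ _).trans (add_le_add ((norm_add_le _ _).trans (add_le_add ?_ ?_)) ?_)
    · exact (lmul_norm _).trans (GG_bd L hH t)
    · refine (rmul_norm _).trans ?_
      rw [l2_opNorm_conjTranspose]
      exact GG_bd L hH t
    · exact kraus_norm L

/-- product rule -/
lemma LipD.mmul {X f Y g : ℝ → M d} {T : ℝ} (hT : 0 ≤ T) (hX : LipD X f 0 T) (hY : LipD Y g 0 T) :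
    LipD (fun t => X t * Y t) (fun t => X t * g t + f t * Y t) 0 T :=
  LipD.bilin hT hX hY (ContinuousLinearMap.mul ℝ (M d))

/-- adjoint rule -/
lemma LipD.mstar {X f : ℝ → M d} {T : ℝ} (hX : LipD X f 0 T) :
    LipD (fun t => (X t)ᴴ) (fun t => (f t)ᴴ) 0 T :=
  LipD.clm hX (starL' ℝ : M d ≃L[ℝ] M d).toContinuousLinearMap

end Pool.Agent.Q234.JO
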