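import Mathlib

/-!
# Linear Caratheodory differential equations (helper234)

`X t = x₀ + ∫ r in s..t, A r (X r)` for a bounded measurable family of operators: existence of a
continuous solution, with values in an invariant closed cone, and uniqueness.
-/

set_option autoImplicit false

noncomputable section

namespace Pool.Agent.Q234.JO

open MeasureTheory Set Filter Topology
open scoped BoundedContinuousFunction

variable {E : Type*} [NormedAddCommGroup E] [NormedSpace ℝ E] [CompleteSpace E]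

/-- weight integral -/
lemma int_weight {M : ℝ} (hM : 0 < M) {s t : ℝ} (_h : s ≤ t) :
    ∫ r in s..t, M * Real.exp (2 * M * (r - s)) = (Real.exp (2 * M * (t - s)) - 1) / 2 := by
  have h1 : ∀ r ∈ Set.uIcc s t, HasDerivAt (fun r => Real.exp (2 * M * (r - s)) / 2)
      (M * Real.exp (2 * M * (r - s))) r := by
    intro r _
    have h2 : HasDerivAt (fun r : ℝ => 2 * M * (r - s)) (2 * M) r := by
      have := ((hasDerivAt_id r).sub_const s).const_mul (2 * M)
      simpa using this
    have h3 := (h2.exp).div_const 2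
    exact h3.congr_deriv (by ring)
  rw [intervalIntegral.integral_eq_sub_of_hasDerivAt h1]
  · simp
    ring
  · apply Continuous.intervalIntegrable
    fun_prop

section Exist

variable (A : ℝ → E →L[ℝ] E) (M s : ℝ) (x₀ : E)

/-- the integrand -/
def itg (Y : ℝ → E) (r : ℝ) : E := Real.exp (2 * M * (r - s)) • A r (Y r)

/-- the Picard map with weight, as a function -/
def psi (Y : ℝ → E) (t : ℝ) : E :=
  Real.exp (-(2 * M * (max t s - s))) • (x₀ + ∫ r in s..(max t s), itg A M s Y r)

variable {A M s}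

lemma itg_int (hA : ∀ Y : ℝ → E, Continuous Y → AEStronglyMeasurable (fun r => A r (Y r)) volume)
    (hM : ∀ t, ‖A t‖ ≤ M) {Y : ℝ → E} (hY : Continuous Y) (a b : ℝ) :
    IntervalIntegrable (itg A M s Y) volume a b := by
  have hm : AEStronglyMeasurable (itg A M s Y) volume := by
    unfold itg
    refine AEStronglyMeasurable.smul ?_ (hA Y hY)
    exact (by fun_prop : Continuous fun r : ℝ => Real.exp (2 * M * (r - s))).aestronglyMeasurable
  have hb : Continuous fun r : ℝ => Real.exp (2 * M * (r - s)) * (M * ‖Y r‖) := by fun_prop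
  refine (hb.intervalIntegrable a b).mono_fun (hm.mono_measure Measure.restrict_le_self) ?_
  refine Filter.Eventually.of_forall fun r => ?_
  have h1 : ‖A r (Y r)‖ ≤ M * ‖Y r‖ := (A r).le_of_opNorm_le (hM r) _
  have h2 : 0 ≤ M := (norm_nonneg _).trans (hM r)
  show ‖Real.exp (2 * M * (r - s)) • A r (Y r)‖ ≤ ‖Real.exp (2 * M * (r - s)) * (M * ‖Y r‖)‖
  rw [norm_smul, norm_mul]
  refine mul_le_mul_of_nonneg_left ?_ (norm_nonneg _)
  rw [Real.norm_eq_abs, abs_of_nonneg (by positivity)]
  exact h1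

lemma psi_cont (hA : ∀ Y : ℝ → E, Continuous Y → AEStronglyMeasurable (fun r => A r (Y r)) volume)
    (hM : ∀ t, ‖A t‖ ≤ M) {Y : ℝ → E} (hY : Continuous Y) : Continuous (psi A M s x₀ Y) := by
  unfold psi
  refine Continuous.smul (by fun_prop) (continuous_const.add ?_)
  have h1 : Continuous fun b : ℝ => ∫ r in s..b, itg A M s Y r :=
    intervalIntegral.continuous_primitive (fun a b => itg_int hA hM hY a b) s
  exact h1.comp (continuous_id.max continuous_const)

lemma psi_diff (hA : ∀ Y : ℝ → E, Continuous Y → AEStronglyMeasurable (fun r => A r (Y r)) volume)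
    (hM0 : 0 < M) (hM : ∀ t, ‖A t‖ ≤ M) {Y Z : ℝ → E} (hY : Continuous Y) (hZ : Continuous Z)
    {D : ℝ} (hD : ∀ r, ‖Y r - Z r‖ ≤ D) (t : ℝ) :
    ‖psi A M s x₀ Y t - psi A M s x₀ Z t‖ ≤ D / 2 := by
  have hts : s ≤ max t s := le_max_right _ _
  have hD0 : 0 ≤ D := (norm_nonneg _).trans (hD 0)
  have h1 : psi A M s x₀ Y t - psi A M s x₀ Z t = Real.exp (-(2 * M * (max t s - s))) •
      ∫ r in s..(max t s), (itg A M s Y r - itg A M s Z r) := by
    unfold psi
    rw [← smul_sub, intervalIntegral.integral_sub (itg_int hA hM hY _ _) (itg_int hA hM hZ _ _)]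
    congr 1
    abel
  rw [h1, norm_smul, Real.norm_eq_abs, abs_of_pos (Real.exp_pos _)]
  have h2 : ‖∫ r in s..(max t s), (itg A M s Y r - itg A M s Z r)‖ ≤
      ∫ r in s..(max t s), D * (M * Real.exp (2 * M * (r - s))) := by
    refine intervalIntegral.norm_integral_le_of_norm_le hts ?_ ?_
    · refine Filter.Eventually.of_forall fun r _ => ?_
      unfold itg
      rw [← smul_sub, norm_smul, Real.norm_eq_abs, abs_of_pos (Real.exp_pos _), ← map_sub]
      have h3 : ‖A r (Y r - Z r)‖ ≤ M * D :=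
        ((A r).le_of_opNorm_le (hM r) _).trans (mul_le_mul_of_nonneg_left (hD r) hM0.le)
      calc _ ≤ Real.exp (2 * M * (r - s)) * (M * D) :=
            mul_le_mul_of_nonneg_left h3 (Real.exp_pos _).le
        _ = _ := by ring
    · apply Continuous.intervalIntegrable
      fun_prop
  rw [intervalIntegral.integral_const_mul, int_weight hM0 hts] at h2
  calc _ ≤ Real.exp (-(2 * M * (max t s - s))) * (D * ((Real.exp (2 * M * (max t s - s)) - 1) / 2)) :=
        mul_le_mul_of_nonneg_left h2 (Real.exp_pos _).le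
    _ = D / 2 * (Real.exp (-(2 * M * (max t s - s))) * Real.exp (2 * M * (max t s - s)) -
          Real.exp (-(2 * M * (max t s - s)))) := by ring
    _ = D / 2 * (1 - Real.exp (-(2 * M * (max t s - s)))) := by
        rw [← Real.exp_add]; simp
    _ ≤ D / 2 * 1 := by
        refine mul_le_mul_of_nonneg_left ?_ (by positivity)
        have := Real.exp_pos (-(2 * M * (max t s - s)))
        linarith
    _ = D / 2 := mul_one _

lemma psi_bound (hA : ∀ Y : ℝ → E, Continuous Y → AEStronglyMeasurable (fun r => A r (Y r)) volume)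
    (hM0 : 0 < M) (hM : ∀ t, ‖A t‖ ≤ M) {Y : ℝ → E} (hY : Continuous Y)
    {D : ℝ} (hD : ∀ r, ‖Y r‖ ≤ D) (t : ℝ) : ‖psi A M s x₀ Y t‖ ≤ ‖x₀‖ + D / 2 := by
  have h1 := psi_diff x₀ hA hM0 hM hY (continuous_const (y := (0 : E))) (D := D)
    (fun r => by simpa using hD r) t (s := s)
  have h2 : psi A M s x₀ (fun _ => (0 : E)) t = Real.exp (-(2 * M * (max t s - s))) • x₀ := by
    unfold psi itg
    simp
  have h3 : ‖psi A M s x₀ (fun _ => (0 : E)) t‖ ≤ ‖x₀‖ := by
    rw [h2, norm_smul, Real.norm_eq_abs, abs_of_pos (Real.exp_pos _)]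
    have : Real.exp (-(2 * M * (max t s - s))) ≤ 1 := by
      apply Real.exp_le_one_iff.2
      have : 0 ≤ max t s - s := by linarith [le_max_right t s]
      have := mul_nonneg (by linarith : 0 ≤ 2 * M) this
      linarith
    exact mul_le_of_le_one_left (norm_nonneg _) this
  calc _ = ‖(psi A M s x₀ Y t - psi A M s x₀ (fun _ => (0 : E)) t) +
        psi A M s x₀ (fun _ => (0 : E)) t‖ := by rw [sub_add_cancel]
    _ ≤ _ := (norm_add_le _ _).trans (by linarith)

/-- Existence of a solution in an invariant closed cone. -/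
theorem exists_sol (hA : ∀ Y : ℝ → E, Continuous Y →
      AEStronglyMeasurable (fun r => A r (Y r)) volume)
    (hM : ∀ t, ‖A t‖ ≤ M) (s : ℝ) (C : Set E) (hCc : IsClosed C) (hC0 : (0 : E) ∈ C) (hx : x₀ ∈ C)
    (hCs : ∀ c : ℝ, 0 ≤ c → ∀ x ∈ C, c • x ∈ C)
    (hCi : ∀ a b : ℝ, a ≤ b → ∀ x ∈ C, ∀ g : ℝ → E, IntervalIntegrable g volume a b →
      (∀ r, g r ∈ C) → x + ∫ r in a..b, g r ∈ C)
    (hAC : ∀ t, ∀ x ∈ C, A t x ∈ C) :
    ∃ X : ℝ → E, Continuous X ∧ (∀ t, s ≤ t → X t = x₀ + ∫ r in s..t, A r (X r)) ∧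
      ∀ t, X t ∈ C := by
  -- enlarge M
  obtain ⟨M', hM0, hM'⟩ : ∃ M' : ℝ, 0 < M' ∧ ∀ t, ‖A t‖ ≤ M' :=
    ⟨max M 1, lt_max_of_lt_right one_pos, fun t => (hM t).trans (le_max_left _ _)⟩
  let Ψ : (ℝ →ᵇ E) → (ℝ →ᵇ E) := fun Y =>
    BoundedContinuousFunction.ofNormedAddCommGroup (psi A M' s x₀ Y)
      (psi_cont x₀ hA hM' Y.continuous) (‖x₀‖ + ‖Y‖ / 2)
      (psi_bound x₀ hA hM0 hM' Y.continuous (fun r => Y.norm_coe_le_norm r))
  have hcontr : ContractingWith (1 / 2 : NNReal) Ψ := by
    refine ⟨by norm_num, LipschitzWith.of_dist_le_mul fun Y Z => ?_⟩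
    rw [BoundedContinuousFunction.dist_le (by positivity)]
    intro t
    rw [dist_eq_norm]
    have := psi_diff x₀ hA hM0 hM' Y.continuous Z.continuous (D := dist Y Z)
      (fun r => by rw [← dist_eq_norm]; exact BoundedContinuousFunction.dist_coe_le_dist r) t
        (s := s)
    refine this.trans (le_of_eq ?_)
    push_cast
    ring
  let F := ContractingWith.fixedPoint Ψ hcontr
  have hF : Ψ F = F := hcontr.fixedPoint_isFixedPt
  have hFt : ∀ t, F t = psi A M' s x₀ F t := fun t => by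
    conv_lhs => rw [← hF]
    rfl
  have hmaps : ∀ Y : ℝ →ᵇ E, (∀ t, Y t ∈ C) → ∀ t, Ψ Y t ∈ C := by
    intro Y hY t
    show psi A M' s x₀ Y t ∈ C
    unfold psi
    refine hCs _ (Real.exp_pos _).le _ ?_
    refine hCi s _ (le_max_right _ _) x₀ hx _ (itg_int hA hM' Y.continuous _ _) fun r => ?_
    exact hCs _ (Real.exp_pos _).le _ (hAC r _ (hY r))
  have hFC : ∀ t, F t ∈ C := by
    intro t
    have h1 := hcontr.tendsto_iterate_fixedPoint (0 : ℝ →ᵇ E)
    have h2 : ∀ n : ℕ, ∀ t, (Ψ^[n] 0) t ∈ C := by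
      intro n
      induction n with
      | zero => intro t; simpa using hC0
      | succ n ih =>
        intro t
        rw [Function.iterate_succ_apply']
        exact hmaps _ ih t
    have h3 : Tendsto (fun n => (Ψ^[n] 0) t) atTop (𝓝 (F t)) :=
      ((BoundedContinuousFunction.lipschitz_eval_const t).continuous.tendsto _).comp h1
    exact hCc.mem_of_tendsto h3 (Filter.Eventually.of_forall fun n => h2 n t)
  refine ⟨fun t => Real.exp (2 * M' * (t - s)) • F t, ?_, ?_, ?_⟩
  · exact (by fun_prop : Continuous fun t : ℝ => Real.exp (2 * M' * (t - s))).smul F.continuous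
  · intro t ht
    simp only
    rw [hFt t]
    unfold psi
    rw [max_eq_left ht, smul_smul, ← Real.exp_add]
    simp only [add_neg_cancel, Real.exp_zero, one_smul]
    congr 1
    refine intervalIntegral.integral_congr fun r _ => ?_
    simp only [itg, map_smul]
  · intro t
    exact hCs _ (Real.exp_pos _).le _ (hFC t)

end Exist

omit [CompleteSpace E] in
/-- Uniqueness. -/
theorem sol_unique {A : ℝ → E →L[ℝ] E} {M : ℝ} {s T : ℝ}
    (hM : ∀ t ∈ Icc s T, ‖A t‖ ≤ M) {X Y : ℝ → E}
    (hX : ContinuousOn X (Icc s T)) (hY : ContinuousOn Y (Icc s T)) {x₀ : E}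
    (hXi : ∀ t ∈ Icc s T, IntervalIntegrable (fun r => A r (X r)) volume s t)
    (hYi : ∀ t ∈ Icc s T, IntervalIntegrable (fun r => A r (Y r)) volume s t)
    (hXe : ∀ t ∈ Icc s T, X t = x₀ + ∫ r in s..t, A r (X r))
    (hYe : ∀ t ∈ Icc s T, Y t = x₀ + ∫ r in s..t, A r (Y r)) :
    ∀ t ∈ Icc s T, X t = Y t := by
  intro t ht
  have hsT : s ≤ T := ht.1.trans ht.2
  have hM0 : 0 ≤ M := (norm_nonneg _).trans (hM s ⟨le_rfl, hsT⟩)
  let D : ℝ → ℝ := fun r => ‖X r - Y r‖
  have hD : ContinuousOn D (Icc s T) := (hX.sub hY).norm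
  -- extend D continuously
  let De : ℝ → ℝ := Set.IccExtend hsT ((Icc s T).domRestrict D)
  have hDe : Continuous De := (hD.domRestrict).Icc_extend'
  have hDeq : ∀ r ∈ Icc s T, De r = D r := fun r hr => by
    simp only [De]
    rw [Set.IccExtend_of_mem hsT _ hr]
    rfl
  let φ : ℝ → ℝ := fun t => ∫ r in s..t, De r
  have hφ : ∀ r, HasDerivAt φ (De r) r := fun r =>
    intervalIntegral.integral_hasDerivAt_right (hDe.intervalIntegrable _ _)
      (hDe.stronglyMeasurableAtFilter _ _) hDe.continuousAt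
  have hineq : ∀ r ∈ Icc s T, D r ≤ M * φ r := by
    intro r hr
    have h1 : X r - Y r = ∫ u in s..r, (A u (X u) - A u (Y u)) := by
      rw [intervalIntegral.integral_sub (hXi r hr) (hYi r hr), hXe r hr, hYe r hr]
      abel
    show ‖X r - Y r‖ ≤ _
    rw [h1]
    have h2 : ‖∫ u in s..r, (A u (X u) - A u (Y u))‖ ≤ ∫ u in s..r, M * De u := by
      refine intervalIntegral.norm_integral_le_of_norm_le hr.1 ?_
        ((hDe.const_mul M).intervalIntegrable _ _)
      refine Filter.Eventually.of_forall fun u hu => ?_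
      have hu' : u ∈ Icc s T := ⟨hu.1.le, hu.2.trans hr.2⟩
      rw [← map_sub, hDeq u hu']
      exact (A u).le_of_opNorm_le (hM u hu') _
    rwa [intervalIntegral.integral_const_mul] at h2
  have hgr := norm_le_gronwallBound_of_norm_deriv_right_le (f := φ) (f' := De) (δ := 0) (K := M)
    (ε := 0) (a := s) (b := T) (fun r _ => (hφ r).continuousAt.continuousWithinAt)
    (fun r _ => (hφ r).hasDerivWithinAt) (by simp [φ]) (fun r hr => by
      have hr' : r ∈ Icc s T := ⟨hr.1, hr.2.le⟩
      have h1 := hineq r hr'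
      rw [hDeq r hr', Real.norm_eq_abs, abs_of_nonneg (norm_nonneg _), add_zero]
      refine h1.trans (mul_le_mul_of_nonneg_left (le_abs_self _) hM0))
  have h0 : φ t = 0 := by
    have := hgr t ht
    rw [gronwallBound_ε0, zero_mul] at this
    exact norm_le_zero_iff.1 this
  have h1 := hineq t ht
  rw [h0, mul_zero] at h1
  exact sub_eq_zero.1 (norm_le_zero_iff.1 h1)

end Pool.Agent.Q234.JO
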