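import Pool.Agent.Q234.JO.Lin
import Pool.Agent.Q234.JO.Ac

/-!
# Uniform lower bound (helper234)
-/

set_option autoImplicit false

noncomputable section

namespace Pool.Agent.Q234.JO

open Matrix MeasureTheory Set Filter Topology
open scoped ComplexOrder Matrix.Norms.L2Operator

variable {d m : ℕ}

/-- A trajectory in the interaction picture. -/
structure Traj (L : Fin m → M d) (T B : ℝ) where
  /-- no-jump propagator -/
  S : ℝ → M d
  /-- its inverse -/
  W : ℝ → M d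
  /-- the state in the interaction picture -/
  Z : ℝ → M d
  hS : ContinuousOn S (Icc 0 T)
  hW : ContinuousOn W (Icc 0 T)
  hZ : ContinuousOn Z (Icc 0 T)
  WS : ∀ t ∈ Icc 0 T, W t * S t = 1
  bS : ∀ t ∈ Icc 0 T, ‖S t‖ ≤ B
  bW : ∀ t ∈ Icc 0 T, ‖W t‖ ≤ B
  bZ : ∀ t ∈ Icc 0 T, ‖Z t‖ ≤ B
  psd : ∀ t ∈ Icc 0 T, (Z t).PosSemidef
  tr : (trace (Z 0)).re = 1
  eq : ∀ a ∈ Icc 0 T, ∀ b ∈ Icc 0 T, Z b - Z a = ∫ r in a..b, Phi L (S r) (W r) (Z r)

/-- the quadratic form as a continuous real linear functional -/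
def qL (v : Fin d → ℂ) : M d →L[ℝ] ℝ :=
  LinearMap.toContinuousLinearMap
    { toFun := fun X => q v X
      map_add' := q_add v
      map_smul' := fun c X => by rw [q_smul]; rfl }

@[simp] lemma qL_apply (v : Fin d → ℂ) (X : M d) : qL v X = q v X := rfl

/-- `X ↦ re tr (Qᴴ X Q)` as a continuous real linear functional -/
def tL (Q : M d) : M d →L[ℝ] ℝ :=
  LinearMap.toContinuousLinearMap
    { toFun := fun X => (trace (Qᴴ * X * Q)).re
      map_add' := fun X Y => by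
        rw [mul_add, add_mul, trace_add, Complex.add_re]
      map_smul' := fun c X => by
        rw [Matrix.mul_smul, Matrix.smul_mul, trace_smul]
        simp }

@[simp] lemma tL_apply (Q X : M d) : tL Q X = (trace (Qᴴ * X * Q)).re := rfl

lemma Phi_cont (L : Fin m → M d) {α : Type*} [TopologicalSpace α] {s : Set α} {S W Z : α → M d}
    (hS : ContinuousOn S s) (hW : ContinuousOn W s) (hZ : ContinuousOn Z s) :
    ContinuousOn (fun r => Phi L (S r) (W r) (Z r)) s := by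
  unfold Phi
  refine continuousOn_finsetSum _ fun j _ => ?_
  have h1 : ContinuousOn (fun r => W r * L j * S r) s := (hW.mul continuousOn_const).mul hS
  refine (h1.mul hZ).mul ?_
  exact (continuous_id.matrix_conjTranspose).comp_continuousOn h1

variable {L : Fin m → M d} {T B : ℝ}

lemma Traj.phi_int (τ : Traj L T B) {a b : ℝ} (ha : a ∈ Icc 0 T) (hb : b ∈ Icc 0 T) :
    IntervalIntegrable (fun r => Phi L (τ.S r) (τ.W r) (τ.Z r)) volume a b :=
  ((Phi_cont L τ.hS τ.hW τ.hZ).mono (by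
    intro x hx
    rcases le_total a b with h | h
    · rw [uIcc_of_le h] at hx; exact ⟨ha.1.trans hx.1, hx.2.trans hb.2⟩
    · rw [uIcc_of_ge h] at hx; exact ⟨hb.1.trans hx.1, hx.2.trans ha.2⟩)).intervalIntegrable

/-- monotonicity in the Loewner order -/
lemma Traj.mono (τ : Traj L T B) {a b : ℝ} (ha : a ∈ Icc 0 T) (hb : b ∈ Icc 0 T) (hab : a ≤ b) :
    (τ.Z b - τ.Z a).PosSemidef := by
  rw [psd_iff]
  refine ⟨(τ.psd b hb).1.sub (τ.psd a ha).1, fun v => ?_⟩
  rw [τ.eq a ha b hb, ← qL_apply, ← ContinuousLinearMap.intervalIntegral_comp_comm _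
    (τ.phi_int ha hb)]
  refine intervalIntegral.integral_nonneg hab fun r hr => ?_
  have hr' : r ∈ Icc 0 T := ⟨ha.1.trans hr.1, hr.2.trans hb.2⟩
  rw [qL_apply]
  exact ((psd_iff _).1 (Phi_psd L _ _ (τ.psd r hr'))).2 v

/-- bound for the test functional -/
lemma g_bound (L : Fin m → M d) (Q : M d) (B : ℝ) : ∃ C : ℝ, 0 ≤ C ∧ ∀ S W X : M d, ‖S‖ ≤ B →
    ‖W‖ ≤ B → |g L Q S W X| ≤ C * ‖X‖ := by
  refine ⟨‖tL Q‖ * ∑ j, (B * ‖L j‖ * B) * (B * ‖L j‖ * B), ?_, fun S W X hS hW => ?_⟩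
  · exact mul_nonneg (norm_nonneg _) (Finset.sum_nonneg fun j _ => mul_self_nonneg _)
  · have h1 : g L Q S W X = tL Q (Phi L S W X) := rfl
    rw [h1]
    have h2 : ‖Phi L S W X‖ ≤ (∑ j, (B * ‖L j‖ * B) * (B * ‖L j‖ * B)) * ‖X‖ := by
      unfold Phi
      rw [Finset.sum_mul]
      refine (norm_sum_le _ _).trans (Finset.sum_le_sum fun j _ => ?_)
      have h3 : ‖W * L j * S‖ ≤ B * ‖L j‖ * B :=
        (norm_mul_le _ _).trans (mul_le_mul ((norm_mul_le _ _).trans
          (mul_le_mul_of_nonneg_right hW (norm_nonneg _))) hS (norm_nonneg _)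
          (mul_nonneg ((norm_nonneg _).trans hW) (norm_nonneg _)))
      have h4 : ‖(W * L j * S)ᴴ‖ ≤ B * ‖L j‖ * B := by
        rw [l2_opNorm_conjTranspose]; exact h3
      have h5 : 0 ≤ B * ‖L j‖ * B := (norm_nonneg _).trans h3
      calc ‖W * L j * S * X * (W * L j * S)ᴴ‖ ≤ ‖W * L j * S‖ * ‖X‖ * ‖(W * L j * S)ᴴ‖ :=
            (norm_mul_le _ _).trans (mul_le_mul_of_nonneg_right (norm_mul_le _ _) (norm_nonneg _))
        _ ≤ (B * ‖L j‖ * B) * ‖X‖ * (B * ‖L j‖ * B) := by gcongr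
        _ = _ := by ring
    calc |tL Q (Phi L S W X)| ≤ ‖tL Q‖ * ‖Phi L S W X‖ := (tL Q).le_opNorm _
      _ ≤ _ := by
        rw [mul_assoc]
        exact mul_le_mul_of_nonneg_left h2 (norm_nonneg _)

/-- the compact set of pairs -/
lemma g_min (hL : Gen L) {X : M d} (hX : X.PosSemidef) (hX0 : X ≠ 0)
    {Q : M d} (hQ : ∀ u, X *ᵥ u = 0 → ∃ v, Q *ᵥ v = u) (hXQ : X * Q = 0) (hQ0 : Q ≠ 0) (B : ℝ) :
    ∃ δ : ℝ, 0 < δ ∧ ∀ S W : M d, ‖S‖ ≤ B → ‖W‖ ≤ B → W * S = 1 → δ ≤ g L Q S W X := by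
  let K : Set (M d × M d) := {p | ‖p.1‖ ≤ B ∧ ‖p.2‖ ≤ B ∧ p.2 * p.1 = 1}
  have hK : IsCompact K := by
    have hsub : K ⊆ Metric.closedBall (0 : M d) B ×ˢ Metric.closedBall (0 : M d) B := by
      rintro ⟨S, W⟩ ⟨h1, h2, _⟩
      exact ⟨by simpa using h1, by simpa using h2⟩
    refine IsCompact.of_isClosed_subset ((isCompact_closedBall _ _).prod (isCompact_closedBall _ _))
      ?_ hsub
    refine (isClosed_le (continuous_fst.norm) continuous_const).inter
      ((isClosed_le (continuous_snd.norm) continuous_const).inter ?_)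
    exact isClosed_eq (continuous_snd.mul continuous_fst) continuous_const
  have hcont : ContinuousOn (fun p : M d × M d => g L Q p.1 p.2 X) K := by
    have h1 : (fun p : M d × M d => g L Q p.1 p.2 X) = fun p => tL Q (Phi L p.1 p.2 X) := rfl
    rw [h1]
    exact (tL Q).continuous.comp_continuousOn
      (Phi_cont L continuousOn_fst continuousOn_snd continuousOn_const)
  rcases K.eq_empty_or_nonempty with hem | hne
  · refine ⟨1, one_pos, fun S W h1 h2 h3 => ?_⟩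
    have : (S, W) ∈ K := ⟨h1, h2, h3⟩
    rw [hem] at this
    exact absurd this (Set.notMem_empty _)
  · obtain ⟨p, hp, hmin⟩ := hK.exists_isMinOn hne hcont
    refine ⟨g L Q p.1 p.2 X, g_pos hL hX hX0 hQ hXQ hQ0 hp.2.2, fun S W h1 h2 h3 => ?_⟩
    have h4 : (S, W) ∈ K := ⟨h1, h2, h3⟩
    exact isMinOn_iff.1 hmin (S, W) h4

end Pool.Agent.Q234.JO
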